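import Mathlib
import Pool.Agent.Helper82.RK.PAll

/-! Project RK (MP_aa96c4_al): shared definitions and target statements for the functional part
(memo_RK_master_helper43.md). -/

namespace RK43

open RKC2 (Cj PP)
open Pool.Agent.Helper27.BE Pool.Agent.Helper60.RK

/-- `ℚ/ℤ`. -/
abbrev TT : Type := AddCircle (1 : ℚ)

section words

variable {G : Type} [Group G]

/-- `x - 1` in `ℤ[G]`. -/
noncomputable def dl (x : G) : MonoidAlgebra ℤ G := MonoidAlgebra.of ℤ G x - 1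

/-- additive extension of a function on `G` to `ℤ[G]`. -/
noncomputable def ext (f : G → TT) : MonoidAlgebra ℤ G →+ TT :=
  (Finsupp.liftAddHom fun x => zmultiplesHom TT (f x)).comp
    (MonoidAlgebra.coeffAddEquiv (R := ℤ) (M := G)).toAddMonoidHom

/-- the word `(x_1 - 1) ⋯ (x_q - 1)`. -/
noncomputable def wd (l : List G) : MonoidAlgebra ℤ G := (l.map dl).prod

/-- weighted letters: `(x, v)` with `x` in `F` and in `S v`. -/
def WIn (F : Subgroup G) (S : ℕ → Subgroup G) (l : List (G × ℕ)) : Prop :=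
  ∀ a ∈ l, a.1 ∈ F ∧ a.1 ∈ S a.2

/-- total weight. -/
def wt (l : List (G × ℕ)) : ℕ := (l.map Prod.snd).sum

/-- `p ^ b f` kills all nonempty words of elements of `F` with `R ≤ Θ b (weight)`. -/
def Kill (p : ℕ) (F : Subgroup G) (S : ℕ → Subgroup G) (f : G → TT) (Θ : ℕ → ℕ → ℕ) (R : ℕ) :
    Prop :=
  ∀ (b : ℕ) (l : List (G × ℕ)), l ≠ [] → WIn F S l → R ≤ Θ b (wt l) →
    p ^ b • ext f (wd (l.map Prod.fst)) = 0

/-- the potential condition for a letter of weight `w`. -/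
def Pot (p w : ℕ) (Θ : ℕ → ℕ → ℕ) : Prop :=
  (∀ b, Monotone (Θ b)) ∧ ∀ b v i, 1 ≤ i → Θ b (p * w + v) ≤ Θ (b + 1) (i * w + v)

end words

/-- one digit step: `E'` is `F` together with the powers of the letter `e` of weight `w`. -/
structure Step (p : ℕ) {G : Type} [Group G] (S : ℕ → Subgroup G) (F E : Subgroup G) (e : G)
    (w : ℕ) : Prop where
  le : F ≤ E
  /-- every element of `E` is `e ^ a * y` -/
  dig : ∀ x ∈ E, ∃ a < p, ∃ y ∈ F, x = e ^ a * y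
  uniq : ∀ a < p, ∀ y ∈ F, e ^ a * y ∈ F → a = 0
  eE : e ∈ E
  eS : e ∈ S w
  pow : e ^ p ∈ F ∧ e ^ p ∈ S (p * w)
  comm : ∀ v, ∀ y ∈ F, y ∈ S v → y⁻¹ * e⁻¹ * y * e ∈ F ∧ y⁻¹ * e⁻¹ * y * e ∈ S (v + w)
  adapt : ∀ v, ∀ a < p, ∀ y ∈ F, e ^ a * y ∈ S v → y ∈ S v ∧ (a = 0 ∨ v ≤ w)

/-- ONE-STEP LEMMA (memo section 1). -/
def OneStep (p : ℕ) : Prop :=
  ∀ {G : Type} [Group G] (S : ℕ → Subgroup G) (F E : Subgroup G) (e : G) (w : ℕ),
    Step p S F E e w → ∀ (f f' : G → TT), f 1 = 0 →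
    (∀ a < p, ∀ y ∈ F, f' (e ^ a * y) = f y) →
    ∀ (Θ : ℕ → ℕ → ℕ) (R : ℕ), Pot p w Θ → Kill p F S f Θ R → Kill p E S f' Θ R

/-- a chain of digit steps from `F` to `E` (first letter of the list = top letter). -/
inductive Chain (p : ℕ) {G : Type} [Group G] (S : ℕ → Subgroup G) :
    Subgroup G → List (G × ℕ) → Subgroup G → Prop
  | nil (F : Subgroup G) : Chain p S F [] F
  | cons {F F' E : Subgroup G} {l : List (G × ℕ)} {e : G} {w : ℕ} (h : Chain p S F l F')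
      (hs : Step p S F' E e w) : Chain p S F ((e, w) :: l) E

/-- ordered product `e_1 ^ a_1 ⋯ e_m ^ a_m`. -/
def dprod {G : Type} [Group G] : List (G × ℕ) → List ℕ → G
  | [], _ => 1
  | _ :: _, [] => 1
  | q :: l, a :: as => q.1 ^ a * dprod l as

/-- DIGIT CHAIN (memo: CHAIN). `E` is a group with a decreasing series `S`, `F` normal, `E / F`
finite, `S v ≤ F` for `v ≥ H`, `[S v, S w] ≤ S (v + w)` and `(S w) ^ p ≤ S (p w)` for `w < H`. Then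
there is a chain of digit steps with letters of weights `1 ≤ w < H`, valid for every series `S'`
which agrees with `S` up to `H` and has the same properties. -/
def ChainExists (p : ℕ) : Prop :=
  ∀ {G : Type} [Group G] (S : ℕ → Subgroup G) (F : Subgroup G) (H : ℕ),
    Antitone S → S 1 = ⊤ → F.Normal → F.index ≠ 0 → (∀ v, (S v).Normal) → S H ≤ F →
    (∀ v w, 1 ≤ v → 1 ≤ w → v + w ≤ H → ∀ x ∈ S v, ∀ y ∈ S w, x⁻¹ * y⁻¹ * x * y ∈ S (v + w)) →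
    (∀ w, 1 ≤ w → ∀ x ∈ S w, x ^ p ∈ S (min H (p * w))) →
    ∃ l : List (G × ℕ), (∀ q ∈ l, 1 ≤ q.2 ∧ q.2 < H) ∧
      -- number of letters of each weight
      (∀ w, 1 ≤ w → w < H → p ^ (l.filter (fun q => q.2 = w)).length =
        (F ⊔ S (w + 1)).relIndex (F ⊔ S w)) ∧
      -- the chain, for every admissible continuation `S'` of `S`
      ∀ S' : ℕ → Subgroup G, Antitone S' → (∀ v, v ≤ H → S' v = S v) →
        (∀ v w, 1 ≤ v → 1 ≤ w → w < H → ∀ x ∈ S' v, ∀ y ∈ S' w, x⁻¹ * y⁻¹ * x * y ∈ S' (v + w)) →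
        (∀ w, 1 ≤ w → w < H → ∀ x ∈ S' w, x ^ p ∈ S' (p * w)) →
        Chain p S' F l ⊤

/-- `f'` extends `f` by digits: `f' (e_1 ^ a_1 ⋯ e_m ^ a_m * y) = f y` for `y ∈ F`. -/
def DigitExt (p : ℕ) {G : Type} [Group G] (F : Subgroup G) (l : List (G × ℕ)) (f f' : G → TT) :
    Prop :=
  ∀ as : List ℕ, as.length = l.length → (∀ a ∈ as, a < p) → ∀ y ∈ F, f' (dprod l as * y) = f y

/-- CHAIN, consequences: digits (with weights), existence of the digit extension, and transfer of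
`Kill`. -/
def ChainProps (p : ℕ) : Prop :=
  ∀ {G : Type} [Group G] (S : ℕ → Subgroup G) (F E : Subgroup G) (l : List (G × ℕ)),
    Chain p S F l E →
    (∀ q ∈ l, q.1 ∈ E ∧ q.1 ∈ S q.2) ∧
    (∀ v, ∀ x ∈ E, x ∈ S v → ∃ as : List ℕ, as.length = l.length ∧ (∀ a ∈ as, a < p) ∧
      ∃ y ∈ F, y ∈ S v ∧ x = dprod l as * y) ∧
    (∀ x ∈ E, ∃ as : List ℕ, as.length = l.length ∧ (∀ a ∈ as, a < p) ∧
      ∃ y ∈ F, x = dprod l as * y) ∧
    (∀ f : G → TT, ∃ f' : G → TT, DigitExt p F l f f') ∧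
    (∀ f f' : G → TT, f 1 = 0 → DigitExt p F l f f' → ∀ (Θ : ℕ → ℕ → ℕ) (R : ℕ),
      (∀ q ∈ l, Pot p q.2 Θ) → Kill p F S f Θ R → Kill p E S f' Θ R)

/-- LEMMA P (memo section 3). `χ` is a homomorphism on `Z`. -/
def LemmaP (p : ℕ) : Prop :=
  ∀ {G : Type} [Group G] [Finite G], IsPGroup p G → ∀ (P Z : Subgroup G) (j N : ℕ),
    RKP.Star p P j → Z.Normal → Z ≤ P → (∀ z ∈ Z, ∀ u ∈ P, z * u = u * z) →
    (∀ u ∈ P, u ^ p ^ N ∈ Z) → ∀ χ : G → TT, (∀ z ∈ Z, ∀ w ∈ Z, χ (z * w) = χ z + χ w) →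
    ∃ f : G → TT, f 1 = 0 ∧ (∀ u ∈ P, ∀ z ∈ Z, f (u * z) = f u + χ z) ∧
      (∀ a b v, v ∈ P → v ^ p ^ a ∈ Z → a + 1 ≤ b → p ^ b • f v = χ (v ^ p ^ b)) ∧
      (∀ (a : ℕ) (l : List G), 2 ≤ l.length → (∀ x ∈ l, x ∈ P) → (∃ x ∈ l, x ^ p ^ a ∈ Z) →
        p ^ (a + 1) • ext f (wd l) = 0) ∧
      (∀ l : List G, N / j + 3 ≤ l.length → (∀ x ∈ l, x ∈ P) → ext f (wd l) = 0)

section group

variable {G : Type} [Group G] {p : ℕ} [hp : Fact p.Prime]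

/-- `X_w = C_G(P_j) ∩ D_w`. -/
noncomputable def XW (p : ℕ) [Fact p.Prime] (G : Type) [Group G] (k j w : ℕ) : Subgroup G :=
  Cj (PP p G k) j ⊓ dimSub p G w

/-- `H_j = p ^ j k`. -/
def HH (p k j : ℕ) : ℕ := p ^ j * k

/-- (E3) of memo section 2. `gx i` is the `i`-th term of the lower central series of `X_w`. -/
def E3 (p : ℕ) [Fact p.Prime] : Prop :=
  ∀ {G : Type} [Group G] [Finite G], IsPGroup p G → ∀ (k : ℕ), 1 ≤ k → gam G (k + 1) = ⊥ →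
    ∀ j w m i, 2 ≤ i → HH p k j ≤ p ^ m * ((i - 1) * w) →
      ∀ g ∈ gam (XW p G k j w) i, g ^ p ^ m = 1

/-- (T) of memo section 2. -/
def PowHom (p : ℕ) [Fact p.Prime] : Prop :=
  ∀ {G : Type} [Group G] [Finite G], IsPGroup p G → ∀ (k : ℕ), 1 ≤ k → gam G (k + 1) = ⊥ →
    ∀ j w r, 2 * HH p k j ≤ p ^ r * w →
      (∀ x ∈ XW p G k j w, ∀ y ∈ XW p G k j w, (x * y) ^ p ^ r = x ^ p ^ r * y ^ p ^ r) ∧
      (∀ x ∈ XW p G k j w, ∀ y ∈ Cj (PP p G k) j, (x⁻¹ * y⁻¹ * x * y) ^ p ^ r = 1)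

/-- The inductive data for `C_j` (memo section 4). `W` is a set of words (lists of elements of
`C_j`), invariant under conjugation. -/
structure Data (p : ℕ) [Fact p.Prime] (G : Type) [Group G] (k j κ : ℕ) (W : Set (List G))
    (f χ : G → TT) : Prop where
  one : f 1 = 0
  hom : ∀ z ∈ XW p G k j (HH p k j), ∀ w ∈ XW p G k j (HH p k j), χ (z * w) = χ z + χ w
  equi : ∀ c ∈ Cj (PP p G k) j, ∀ z ∈ XW p G k j (HH p k j), f (c * z) = f c + χ z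
  single : ∀ w b c, c ∈ XW p G k j w → p ^ 3 * HH p k j ≤ p ^ b * w →
    p ^ b • f c = χ (c ^ p ^ b)
  words : ∀ (b : ℕ) (l : List (G × ℕ)), 2 ≤ l.length → (∀ a ∈ l, a.1 ∈ XW p G k j a.2) →
    κ * HH p k j ≤ p ^ b * wt l → p ^ b • ext f (wd (l.map Prod.fst)) = 0
  kill : ∀ l ∈ W, ∀ g ∈ Cj (PP p G k) j, ext f (MonoidAlgebra.of ℤ G g * wd l) = 0

/-- words of `C_j` of weight `≥ R` in letters of weights `≤ H`. -/
def WA (p : ℕ) [Fact p.Prime] (G : Type) [Group G] (k j H R : ℕ) : Set (List G) :=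
  {l | ∃ L : List (G × ℕ), (∀ a ∈ L, a.1 ∈ XW p G k j a.2 ∧ a.2 ≤ H) ∧ R ≤ wt L ∧
    l = L.map Prod.fst}

/-- words of `b` elements of `C_j' ∩ P_j`. -/
def WB (p : ℕ) [Fact p.Prime] (G : Type) [Group G] (k j j' b : ℕ) : Set (List G) :=
  {l | l.length = b ∧ ∀ x ∈ l, x ∈ XW p G k j' (HH p k j)}

/-- closed under conjugation, letters in `C_j`. -/
def WOK (p : ℕ) [Fact p.Prime] (G : Type) [Group G] (k j : ℕ) (W : Set (List G)) : Prop :=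
  ∀ l ∈ W, l ≠ [] ∧ (∀ x ∈ l, x ∈ Cj (PP p G k) j) ∧ ∀ g : G, l.map (fun x => g * x * g⁻¹) ∈ W

/-- the number of letters after which words of `P` die. -/
def b0 (j j' : ℕ) : ℕ := (j' - j) / j + 3

/-- the bound `R` of the stage `j → j'`. -/
def RR (p k κ j j' : ℕ) : ℕ :=
  (b0 j j' * (1 + (j' - j + 1) * p) + (j' - j + 4) * p + κ) * HH p k j + 1

/-- STAGE THEOREM (memo section 4). -/
def StageThm (p : ℕ) [Fact p.Prime] : Prop :=
  ∀ {G : Type} [Group G] [Finite G], IsPGroup p G → ∀ (k : ℕ), 1 ≤ k → gam G (k + 1) = ⊥ →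
    ∀ (j j' κ κ' : ℕ), 2 ≤ j → j < j' → p ^ 3 ≤ κ' → p * b0 j j' ≤ κ' →
    κ * HH p k j ≤ κ' * HH p k j' → ∀ (W : Set (List G)) (f χ : G → TT), WOK p G k j W →
    Data p G k j κ W f χ → ∃ f' χ' : G → TT,
      Data p G k j' κ' (W ∪ WA p G k j' (HH p k j) (RR p k κ j j') ∪ WB p G k j j' (b0 j j')) f' χ' ∧
      ∀ c ∈ Cj (PP p G k) j, f' c = f c

/-- BASE (memo section 5): `z` is a central element of order `p`. -/
def BaseThm (p : ℕ) [Fact p.Prime] : Prop :=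
  ∀ {G : Type} [Group G] [Finite G], IsPGroup p G → ∀ (k : ℕ), 1 ≤ k → gam G (k + 1) = ⊥ →
    ∀ (j : ℕ), 2 ≤ j → ∃ Y : Subgroup G,
      Y.Normal ∧ XW p G k j (HH p k j) ≤ Y ∧ Y ≤ Cj (PP p G k) j ∧
      ∀ z ∈ Subgroup.center G, z ≠ 1 → ∃ (f χ : G → TT),
      Data p G k j (p ^ 3) (WA p G k j (HH p k j) (p ^ 3 * HH p k j) ∪
        {l | l.length = 2 ∧ ∀ x ∈ l, x ∈ Y}) f χ ∧ f z ≠ 0

/-- the constants `κ` along a chain of scales. -/
def kap (p : ℕ) (js : ℕ → ℕ) : ℕ → ℕ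
  | 0 => p ^ 3
  | i + 1 => max (p ^ 3) (p * b0 (js i) (js (i + 1)))

/-- FINAL functional: `js 0 < js 1 < ... < js s` scales, `P (js s) = 1`. -/
def FinalThm (p : ℕ) [Fact p.Prime] : Prop :=
  ∀ {G : Type} [Group G] [Finite G], IsPGroup p G → ∀ (k : ℕ), 1 ≤ k → gam G (k + 1) = ⊥ →
    ∀ (js : ℕ → ℕ) (s e : ℕ), 2 ≤ js 0 → (∀ i < s, 2 * js i ≤ js (i + 1)) →
    PP p G k (js s) = ⊥ → p ^ 3 * HH p k (js s) ≤ p ^ e → (∀ g : G, g ^ p ^ e = 1) →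
    ∃ Y : Subgroup G, Y.Normal ∧ XW p G k (js 0) (HH p k (js 0)) ≤ Y ∧
      Y ≤ Cj (PP p G k) (js 0) ∧
    ∀ z ∈ Subgroup.center G, z ≠ 1 → ∃ f : G → TT, f 1 = 0 ∧ f z ≠ 0 ∧ (∀ g, p ^ e • f g = 0) ∧
      (∀ (g h : G) (l : List G), (l ∈ WA p G k (js 0) (HH p k (js 0)) (p ^ 3 * HH p k (js 0)) ∨
        (l.length = 2 ∧ ∀ x ∈ l, x ∈ Y) ∨
        ∃ i < s, l ∈ WA p G k (js (i + 1)) (HH p k (js i))
            (RR p k (kap p js i) (js i) (js (i + 1))) ∨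
          l ∈ WB p G k (js i) (js (i + 1)) (b0 (js i) (js (i + 1)))) →
        ext f (MonoidAlgebra.of ℤ G g * wd l * MonoidAlgebra.of ℤ G h) = 0)

end group

end RK43
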