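import Mathlib
import Pool.Agent.Helper43.RK.Defs

/-! Project RK (MP_aa96c4_al): the E-series (memo section 2). -/

namespace RK43

open RKC2 (Cj PP)
open Pool.Agent.Helper27.BE Pool.Agent.Helper60.RK

/-- least `N` with `p ^ 3 H_j ≤ p ^ N max(w,1)`. -/
noncomputable def Nw (p k j w : ℕ) : ℕ := sInf {N | p ^ 3 * HH p k j ≤ p ^ N * max w 1}

/-- the facts about the E-series of `C_j` and a character `χ` of `Z_j = C_j ∩ D_(H_j)`. -/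
structure ESer (p : ℕ) [Fact p.Prime] (G : Type) [Group G] (k j : ℕ) (χ : G → TT)
    (Ew : ℕ → Subgroup (G × Multiplicative TT)) : Prop where
  mem : ∀ w (x : G) (τ : TT), (x, Multiplicative.ofAdd τ) ∈ Ew w ↔
    x ∈ XW p G k j w ∧ p ^ (Nw p k j w) • τ + χ (x ^ p ^ (Nw p k j w)) = 0
  anti : Antitone Ew
  zero : Ew 0 = Ew 1
  comm : ∀ a b, ∀ x ∈ Ew a, ∀ y ∈ Ew b, x⁻¹ * y⁻¹ * x * y ∈ Ew (a + b)
  pow : ∀ a, ∀ x ∈ Ew a, x ^ p ∈ Ew (p * a)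
  lift : ∀ w, ∀ x ∈ XW p G k j w, ∃ τ : TT, (x, Multiplicative.ofAdd τ) ∈ Ew w
  shift : ∀ w b (x : G) (τ : TT), (x, Multiplicative.ofAdd τ) ∈ Ew w →
    p ^ 3 * HH p k j ≤ p ^ b * w → p ^ b • τ + χ (x ^ p ^ b) = 0
  graph : ∀ w z, z ∈ XW p G k j w → z ∈ XW p G k j (HH p k j) →
    (z, Multiplicative.ofAdd (-χ z)) ∈ Ew w
  centr : ∀ z ∈ XW p G k j (HH p k j), ∀ x ∈ Cj (PP p G k) j, z * x = x * z

/-- E-SERIES (to be proved from `PowHom`). -/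
def ESerThm (p : ℕ) [Fact p.Prime] : Prop :=
  ∀ {G : Type} [Group G] [Finite G], IsPGroup p G → ∀ (k : ℕ), 1 ≤ k → gam G (k + 1) = ⊥ →
    ∀ (j : ℕ) (χ : G → TT), (∀ z ∈ XW p G k j (HH p k j), ∀ w ∈ XW p G k j (HH p k j),
      χ (z * w) = χ z + χ w) → ∃ Ew : ℕ → Subgroup (G × Multiplicative TT),
        ESer p G k j χ Ew

end RK43
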