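import Mathlib
import Pool.Agent.Helper43.RK.Defs

/-! Project RK (MP_aa96c4_al): the extended series inside `P_j` (memo section 2, PHI-SERIES). -/

namespace RK43

open RKC2 (Cj PP)
open Pool.Agent.Helper27.BE Pool.Agent.Helper60.RK

/-- `Q(s, i)`, `u = s p H + i`, `0 ≤ i < p H`: `(D_(H + min i ((p-1) H)))^[s]`. -/
noncomputable def QV (p : ℕ) [Fact p.Prime] (G : Type) [Group G] (k j u : ℕ) : Subgroup G :=
  RKP.pw (p ^ (u / (p * HH p k j)))
    (dimSub p G (HH p k j + min (u % (p * HH p k j)) ((p - 1) * HH p k j)))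

/-- the facts about `QV` needed in the stage. -/
def QVFacts (p : ℕ) [Fact p.Prime] : Prop :=
  ∀ {G : Type} [Group G] [Finite G], IsPGroup p G → ∀ (k : ℕ), 1 ≤ k → gam G (k + 1) = ⊥ →
    ∀ j, 2 ≤ j →
      Antitone (QV p G k j) ∧ (∀ u, (QV p G k j u).Normal) ∧
      (∀ u, u ≤ (p - 1) * HH p k j → QV p G k j u = dimSub p G (HH p k j + u)) ∧
      (∀ u, QV p G k j u ≤ PP p G k (j + u / (p * HH p k j))) ∧
      (∀ u w, 1 ≤ w → w < HH p k j → ∀ x ∈ QV p G k j u, ∀ y ∈ dimSub p G w,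
        x⁻¹ * y⁻¹ * x * y ∈ QV p G k j (u + w))

end RK43
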