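import Mathlib
import Pool.Agent.Helper43.RK.Defs

/-! Project RK (MP_aa96c4_al): evaluation of functionals on words. -/

namespace RK43

open RKC2 (Cj PP)

section

variable {G : Type} [Group G]

lemma ext_of (f : G → TT) (x : G) : ext f (MonoidAlgebra.of ℤ G x) = f x := by
  change Finsupp.liftAddHom (fun x => zmultiplesHom TT (f x)) (Finsupp.single x (1 : ℤ)) = f x
  rw [Finsupp.liftAddHom_apply_single]
  simp

/-- evaluation of `f` on `g (x_1 - 1) ⋯ (x_q - 1)`. -/
noncomputable def ev (f : G → TT) (g : G) (l : List G) : TT :=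
  ext f (MonoidAlgebra.of ℤ G g * wd l)

lemma ev_nil (f : G → TT) (g : G) : ev f g [] = f g := by
  rw [ev, wd, List.map_nil, List.prod_nil, mul_one, ext_of]

lemma ev_cons (f : G → TT) (g x : G) (l : List G) :
    ev f g (x :: l) = ev f (g * x) l - ev f g l := by
  unfold ev
  rw [← map_sub]
  congr 1
  rw [wd, List.map_cons, List.prod_cons, dl, map_mul, ← wd]
  noncomm_ring

lemma ext_wd (f : G → TT) (l : List G) : ext f (wd l) = ev f 1 l := by
  rw [ev, map_one, one_mul]

lemma ev_eq (f : G → TT) (g : G) (l : List G) : ev f g l = ev f 1 l + ev f 1 (g :: l) := by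
  rw [ev_cons, one_mul]; abel

lemma ev_congr {f f' : G → TT} {K : Subgroup G} (h : ∀ x ∈ K, f x = f' x) {l : List G}
    (hl : ∀ x ∈ l, x ∈ K) : ∀ {g : G}, g ∈ K → ev f g l = ev f' g l := by
  induction l with
  | nil => intro g hg; rw [ev_nil, ev_nil, h g hg]
  | cons x l ih =>
    intro g hg
    have hx := hl x (by simp)
    have ih' := fun {g} => ih (fun y hy => hl y (by simp [hy])) (g := g)
    rw [ev_cons, ev_cons, ih' (K.mul_mem hg hx), ih' hg]

lemma ev_add (f f' : G → TT) (l : List G) : ∀ g, ev (fun x => f x + f' x) g l = ev f g l + ev f' g l := by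
  induction l with
  | nil => intro g; rw [ev_nil, ev_nil, ev_nil]
  | cons x l ih => intro g; rw [ev_cons, ev_cons, ev_cons, ih, ih]; abel

lemma ev_map {H : Type} [Group H] (π : H →* G) (f : G → TT) (l : List H) :
    ∀ g, ev (fun x => f (π x)) g l = ev f (π g) (l.map π) := by
  induction l with
  | nil => intro g; rw [ev_nil, List.map_nil, ev_nil]
  | cons x l ih => intro g; rw [ev_cons, ih, ih, List.map_cons, ev_cons, map_mul]

/-- a function which is a homomorphism on `K`. -/
lemma ev_hom_one {f : G → TT} {K : Subgroup G} (h : ∀ x ∈ K, ∀ y ∈ K, f (x * y) = f x + f y)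
    {g x : G} (hg : g ∈ K) (hx : x ∈ K) : ev f g [x] = f x := by
  rw [ev_cons, ev_nil, ev_nil, h g hg x hx]; abel

lemma ev_hom_two {f : G → TT} {K : Subgroup G} (h : ∀ x ∈ K, ∀ y ∈ K, f (x * y) = f x + f y)
    {l : List G} (hl : ∀ x ∈ l, x ∈ K) : 2 ≤ l.length → ∀ {g : G}, g ∈ K → ev f g l = 0 := by
  induction l with
  | nil => intro h2; simp at h2
  | cons x l ih =>
    intro h2 g hg
    have hx := hl x (by simp)
    have hl' : ∀ y ∈ l, y ∈ K := fun y hy => hl y (by simp [hy])
    rcases l with _ | ⟨y, l⟩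
    · simp at h2
    · rcases l with _ | ⟨z, l⟩
      · rw [ev_cons, ev_hom_one h (K.mul_mem hg hx) (hl' y (by simp)),
          ev_hom_one h hg (hl' y (by simp)), sub_self]
      · rw [ev_cons, ih hl' (by simp) (K.mul_mem hg hx), ih hl' (by simp) hg, sub_self]

/-- splitting along a product of commuting subgroups. -/
lemma ev_split {fY fC fP : G → TT} {C P : Subgroup G} (hcom : ∀ c ∈ C, ∀ u ∈ P, c * u = u * c)
    (h : ∀ c ∈ C, ∀ u ∈ P, fY (c * u) = fC c + fP u) {cc uu : G → G} {l : List G}
    (hl : ∀ x ∈ l, cc x ∈ C ∧ uu x ∈ P ∧ x = cc x * uu x) :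
    ∀ {c u : G}, c ∈ C → u ∈ P →
      ev fY (c * u) l = ev fC c (l.map cc) + ev fP u (l.map uu) := by
  induction l with
  | nil => intro c u hc hu; rw [List.map_nil, List.map_nil, ev_nil, ev_nil, ev_nil, h c hc u hu]
  | cons x l ih =>
    intro c u hc hu
    obtain ⟨h1, h2, h3⟩ := hl x (by simp)
    have ih' := fun {c u} => ih (fun y hy => hl y (by simp [hy])) (c := c) (u := u)
    rw [ev_cons, List.map_cons, List.map_cons, ev_cons, ev_cons, ih' hc hu]
    have e : c * u * x = (c * cc x) * (u * uu x) := by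
      conv_lhs => rw [h3]
      calc c * u * (cc x * uu x) = c * (u * cc x) * uu x := by group
        _ = c * (cc x * u) * uu x := by rw [hcom _ h1 _ hu]
        _ = _ := by group
    rw [e, ih' (C.mul_mem hc h1) (P.mul_mem hu h2)]
    abel

/-- a letter equal to one. -/
lemma ev_one_mem {f : G → TT} {l : List G} (h : (1 : G) ∈ l) : ∀ g, ev f g l = 0 := by
  induction l with
  | nil => simp at h
  | cons x l ih =>
    intro g
    rw [ev_cons]
    rcases List.mem_cons.1 h with h | h
    · rw [← h, mul_one, sub_self]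
    · rw [ih h, ih h, sub_self]

/-- a letter `z` with `f (x z) = f x + c` for all `x` in a subgroup normalised suitably: words with at
least two letters, one of them in `Z` (central in `K`), are killed. -/
lemma ev_central {f χ : G → TT} {K Z : Subgroup G}
    (hc : ∀ z ∈ Z, ∀ x ∈ K, z * x = x * z) (h : ∀ x ∈ K, ∀ z ∈ Z, f (x * z) = f x + χ z)
    {l : List G} (hl : ∀ x ∈ l, x ∈ K) (hz : ∃ z ∈ l, z ∈ Z) (h2 : 2 ≤ l.length) :
    ∀ {g : G}, g ∈ K → ev f g l = 0 := by
  -- evaluation is equivariant up to a constant that does not depend on `g`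
  have key : ∀ (l : List G), (∀ x ∈ l, x ∈ K) → ∀ z ∈ Z, ∀ g ∈ K,
      ev f (g * z) l = ev f g l + (if l = [] then χ z else 0) := by
    intro l
    induction l with
    | nil => intro _ z hz g hg; rw [ev_nil, ev_nil, h g hg z hz, if_pos rfl]
    | cons x l ih =>
      intro hl z hz g hg
      have hx := hl x (by simp)
      have ih' := ih (fun y hy => hl y (by simp [hy]))
      rw [ev_cons, ev_cons, if_neg (by simp), mul_assoc, hc z hz x hx, ← mul_assoc,
        ih' z hz _ (K.mul_mem hg hx), ih' z hz g hg]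
      abel
  induction l with
  | nil => simp at h2
  | cons x l ih =>
    intro g hg
    have hx := hl x (by simp)
    have hl' : ∀ y ∈ l, y ∈ K := fun y hy => hl y (by simp [hy])
    by_cases hxZ : x ∈ Z
    · rw [ev_cons, key l hl' x hxZ g hg, if_neg (by rintro rfl; simp at h2)]
      abel
    · obtain ⟨z, hz1, hz2⟩ := hz
      have hzl : z ∈ l := by
        rcases List.mem_cons.1 hz1 with rfl | h
        · exact absurd hz2 hxZ
        · exact h
      rcases l with _ | ⟨y, l⟩
      · simp at hzl
      · rcases l with _ | ⟨y', l⟩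
        · have : z = y := by simpa using hzl
          subst this
          rw [ev_cons, ev_cons, ev_cons, ev_nil, ev_nil, ev_nil, ev_nil,
            h _ (K.mul_mem hg hx) z hz2, h _ hg z hz2]
          abel
        · rw [ev_cons, ih hl' ⟨z, hzl, hz2⟩ (by simp) (K.mul_mem hg hx),
            ih hl' ⟨z, hzl, hz2⟩ (by simp) hg, sub_self]

/-- moving a group element across a word. -/
lemma wd_mul_of (l : List G) (h : G) :
    wd l * MonoidAlgebra.of ℤ G h = MonoidAlgebra.of ℤ G h * wd (l.map fun x => h⁻¹ * x * h) := by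
  induction l with
  | nil => simp [wd]
  | cons x l ih =>
    have e1 : wd (x :: l) = dl x * wd l := by simp [wd]
    have e2 : wd ((x :: l).map fun x => h⁻¹ * x * h) =
        dl (h⁻¹ * x * h) * wd (l.map fun x => h⁻¹ * x * h) := by simp [wd]
    rw [e1, e2, mul_assoc, ih, ← mul_assoc, ← mul_assoc]
    congr 1
    rw [dl, dl, sub_mul, mul_sub, ← map_mul, ← map_mul, one_mul, mul_one]
    congr 2
    group

lemma ext_two_sided (f : G → TT) (g h : G) (l : List G) :
    ext f (MonoidAlgebra.of ℤ G g * wd l * MonoidAlgebra.of ℤ G h) =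
      ev f (g * h) (l.map fun x => h⁻¹ * x * h) := by
  rw [ev, mul_assoc, wd_mul_of, ← mul_assoc, ← map_mul]

lemma nsmul_ev (n : ℕ) (f : G → TT) (g : G) (l : List G) :
    n • ev f g l = ev (fun x => n • f x) g l := by
  induction l generalizing g with
  | nil => rw [ev_nil, ev_nil]
  | cons x l ih => rw [ev_cons, ev_cons, smul_sub, ih, ih]

end

end RK43
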