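import Mathlib
import Pool.Agent.Helper43.RK.Ext

/-! Project RK (MP_aa96c4_al): the stage theorem, part 1: groups and the functional on `Y = C P`. -/

namespace RK43

open RKC2 (Cj PP)
open Pool.Agent.Helper27.BE Pool.Agent.Helper60.RK

section

variable {p : ℕ} [hp : Fact p.Prime] {G : Type} [Group G]

lemma HH_pos {k : ℕ} (hk : 1 ≤ k) (j : ℕ) : 0 < HH p k j := Nat.mul_pos (pow_pos hp.out.pos j) hk

omit hp in
lemma HH_add (k j N : ℕ) : HH p k (j + N) = p ^ N * HH p k j := by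
  unfold HH; rw [pow_add]; ring

lemma mem_XW {k j w : ℕ} {x : G} : x ∈ XW p G k j w ↔ x ∈ Cj (PP p G k) j ∧ x ∈ dimSub p G w :=
  Iff.rfl

lemma PP_eq (k j : ℕ) : PP p G k j = dimSub p G (HH p k j) := rfl

lemma Cj_comm {k j : ℕ} {c u : G} (hc : c ∈ Cj (PP p G k) j) (hu : u ∈ dimSub p G (HH p k j)) :
    c * u = u * c := (Subgroup.mem_centralizer_iff.1 hc u hu).symm

lemma Cj_le {k j j' : ℕ} (h : j ≤ j') : Cj (PP p G k) j ≤ Cj (PP p G k) j' :=
  Subgroup.centralizer_le (dimSub_anti (Nat.mul_le_mul_right _ (Nat.pow_le_pow_right hp.out.pos h)))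

instance Cj_normal (k j : ℕ) : (Cj (PP p G k) j).Normal := by
  have : (PP p G k j).Normal := dimSub_normal _
  unfold Cj; infer_instance

instance XW_normal (k j w : ℕ) : (XW p G k j w).Normal := by
  unfold XW; infer_instance

lemma XW_anti {k j : ℕ} : Antitone (XW p G k j) := fun _ _ h => inf_le_inf_left _ (dimSub_anti h)

lemma XW_one {k j : ℕ} : XW p G k j 1 = Cj (PP p G k) j := by
  rw [XW, dimSub_one, inf_top_eq]

lemma XW_zero {k j : ℕ} : XW p G k j 0 = Cj (PP p G k) j := by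
  rw [XW, dimSub_zero, inf_top_eq]

lemma XW_pow {k j w : ℕ} {x : G} (hx : x ∈ XW p G k j w) (s : ℕ) :
    x ^ p ^ s ∈ XW p G k j (p ^ s * w) := by
  refine ⟨Subgroup.pow_mem _ hx.1 _, ?_⟩
  rw [mul_comm]
  exact dimSub_pow_prime_pow hx.2 s

lemma XW_le_X {k j w : ℕ} : XW p G k j w ≤ Cj (PP p G k) j := inf_le_left

lemma HH_mono {k i j : ℕ} (h : i ≤ j) : HH p k i ≤ HH p k j :=
  Nat.mul_le_mul_right _ (Nat.pow_le_pow_right hp.out.pos h)

/-- `Z''`. -/
noncomputable def ZZ (p : ℕ) [Fact p.Prime] (G : Type) [Group G] (k j j' : ℕ) : Subgroup G :=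
  XW p G k j (HH p k j) ⊔ XW p G k j' (HH p k j')

instance ZZ_normal (k j j' : ℕ) : (ZZ p G k j j').Normal := Subgroup.sup_normal _ _

lemma Zj_le_P {k j j' : ℕ} (h : j ≤ j') : XW p G k j (HH p k j) ≤ XW p G k j' (HH p k j) :=
  inf_le_inf_right _ (Cj_le h)

lemma Z'_le_P {k j j' : ℕ} (h : j ≤ j') : XW p G k j' (HH p k j') ≤ XW p G k j' (HH p k j) :=
  XW_anti (HH_mono h)

lemma ZZ_le_P {k j j' : ℕ} (h : j ≤ j') : ZZ p G k j j' ≤ XW p G k j' (HH p k j) :=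
  sup_le (Zj_le_P h) (Z'_le_P h)

lemma ZZ_central {k j j' : ℕ} : ∀ z ∈ ZZ p G k j j',
    ∀ u ∈ XW p G k j' (HH p k j), z * u = u * z := by
  intro z hz u hu
  have h1 : ZZ p G k j j' ≤ Subgroup.centralizer {u} := by
    refine sup_le ?_ ?_
    · intro z hz
      rw [Subgroup.mem_centralizer_iff]
      intro v hv
      rw [Set.mem_singleton_iff.1 hv]
      exact (Cj_comm hz.1 hu.2).symm
    · intro z hz
      rw [Subgroup.mem_centralizer_iff]
      intro v hv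
      rw [Set.mem_singleton_iff.1 hv]
      exact Cj_comm hu.1 hz.2
  exact ((Subgroup.mem_centralizer_iff.1 (h1 hz)) u (Set.mem_singleton u)).symm

lemma P_pow {k j N : ℕ} {u : G} (hu : u ∈ XW p G k (j + N) (HH p k j)) {b : ℕ} (hb : N ≤ b) :
    u ^ p ^ b ∈ XW p G k (j + N) (HH p k (j + N)) := by
  refine XW_anti ?_ (XW_pow hu b)
  rw [HH_add]
  exact Nat.mul_le_mul_right _ (Nat.pow_le_pow_right hp.out.pos hb)

lemma star_P [Finite G] (hG : IsPGroup p G) {k : ℕ} (hk1 : 1 ≤ k) (hk : gam G (k + 1) = ⊥)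
    {j j' : ℕ} (hj : 2 ≤ j) : RKP.Star p (XW p G k j' (HH p k j)) j where
  normal := XW_normal _ _ _
  two := hj
  star := by
    intro R hR hRP
    have S := RKC2.star_PP hG hk1 hk hj
    exact (Subgroup.commutator_mono le_rfl (inf_le_right : XW p G k j' (HH p k j) ≤ _)).trans
      (S.star R hR (hRP.trans inf_le_right))

end

/-- the decomposition `y = c u`. -/
structure Dec {G : Type} [Group G] (C P : Subgroup G) (cc uu : G → G) : Prop where
  c : ∀ y ∈ C ⊔ P, cc y ∈ C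
  u : ∀ y ∈ C ⊔ P, uu y ∈ P
  eq : ∀ y ∈ C ⊔ P, y = cc y * uu y
  c1 : ∀ y ∈ P, cc y = 1
  u1 : ∀ y ∈ P, uu y = y

lemma exists_dec {G : Type} [Group G] (C P : Subgroup G) [hP : P.Normal] :
    ∃ cc uu : G → G, Dec C P cc uu := by
  classical
  have h : ∀ y : G, ∃ q : G × G, (y ∈ P → q = (1, y)) ∧ (y ∈ C ⊔ P → q.1 ∈ C ∧ q.2 ∈ P ∧
      y = q.1 * q.2) := by
    intro y
    by_cases hy : y ∈ P
    · exact ⟨(1, y), fun _ => rfl, fun _ => ⟨C.one_mem, hy, by simp⟩⟩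
    · by_cases hy2 : y ∈ C ⊔ P
      · obtain ⟨c, hc, u, hu, e⟩ := Subgroup.mem_sup_of_normal_right.1 hy2
        exact ⟨(c, u), fun h => absurd h hy, fun _ => ⟨hc, hu, e.symm⟩⟩
      · exact ⟨(1, 1), fun h => absurd h hy, fun h => absurd h hy2⟩
  choose q hq using h
  refine ⟨fun y => (q y).1, fun y => (q y).2, fun y hy => ((hq y).2 hy).1,
    fun y hy => ((hq y).2 hy).2.1, fun y hy => ((hq y).2 hy).2.2, fun y hy => ?_, fun y hy => ?_⟩
  · change (q y).1 = 1; rw [(hq y).1 hy]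
  · change (q y).2 = y; rw [(hq y).1 hy]

/-- the functional `f_Y (c u) = f_C c + f_P u`. -/
lemma exists_fY {G : Type} [Group G] {C P Z : Subgroup G} {fC fP χ : G → TT}
    (hcom : ∀ c ∈ C, ∀ u ∈ P, c * u = u * c) (hZ : ∀ z, z ∈ C → z ∈ P → z ∈ Z)
    (hC : ∀ c ∈ C, ∀ z ∈ Z, fC (c * z) = fC c + χ z) (hP : ∀ u ∈ P, ∀ z ∈ Z, fP (u * z) = fP u + χ z) :
    ∃ fY : G → TT, ∀ c ∈ C, ∀ u ∈ P, fY (c * u) = fC c + fP u := by
  classical
  have h : ∀ y : G, ∃ t : TT, ∀ c ∈ C, ∀ u ∈ P, y = c * u → t = fC c + fP u := by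
    intro y
    by_cases hy : ∃ c ∈ C, ∃ u ∈ P, y = c * u
    · obtain ⟨c, hc, u, hu, rfl⟩ := hy
      refine ⟨fC c + fP u, fun c' hc' u' hu' e => ?_⟩
      -- c' = c z, u = z u'
      have e1 : c⁻¹ * c' = u * u'⁻¹ := by
        rw [inv_mul_eq_iff_eq_mul, ← mul_assoc, eq_mul_inv_iff_mul_eq]; exact e.symm
      set z := c⁻¹ * c' with hz
      have hzC : z ∈ C := C.mul_mem (C.inv_mem hc) hc'
      have hzP : z ∈ P := by rw [e1]; exact P.mul_mem hu (P.inv_mem hu')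
      have hzZ := hZ z hzC hzP
      have e2 : c' = c * z := by rw [hz]; group
      have e3 : u = u' * z := by
        rw [← hcom z hzC u' hu', e1]; group
      rw [e2, e3, hC c hc z hzZ, hP u' hu' z hzZ]
      abel
    · exact ⟨0, fun c hc u hu e => absurd ⟨c, hc, u, hu, e⟩ hy⟩
  choose t ht using h
  exact ⟨t, fun c hc u hu => ht _ c hc u hu rfl⟩

end RK43
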