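import Mathlib
import Pool.Agent.Helper43.RK.Stage1

/-! Project RK (MP_aa96c4_al): the stage theorem, part 2: the kills on `Y = C P`. -/

namespace RK43

open RKC2 (Cj PP)
open Pool.Agent.Helper27.BE Pool.Agent.Helper60.RK

/-- everything about the functional on `Y`. -/
structure Ctx (p : ℕ) [Fact p.Prime] (G : Type) [Group G] (k j N κ κ' : ℕ) (W : Set (List G))
    (fC χC fP χ fY : G → TT) (cc uu : G → G) : Prop where
  hp3 : p ^ 3 ≤ κ'
  hb0 : p * b0 j (j + N) ≤ κ'
  hκ : κ * HH p k j ≤ κ' * HH p k (j + N)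
  hN : 1 ≤ N
  hk : 1 ≤ k
  data : Data p G k j κ W fC χC
  homχ : ∀ z ∈ ZZ p G k j (j + N), ∀ w ∈ ZZ p G k j (j + N), χ (z * w) = χ z + χ w
  agree : ∀ z ∈ XW p G k j (HH p k j), χ z = χC z
  fP1 : fP 1 = 0
  equiP : ∀ u ∈ XW p G k (j + N) (HH p k j), ∀ z ∈ ZZ p G k j (j + N), fP (u * z) = fP u + χ z
  L : ∀ a b v, v ∈ XW p G k (j + N) (HH p k j) → v ^ p ^ a ∈ ZZ p G k j (j + N) → a + 1 ≤ b →
    p ^ b • fP v = χ (v ^ p ^ b)
  I1 : ∀ (a : ℕ) (l : List G), 2 ≤ l.length → (∀ x ∈ l, x ∈ XW p G k (j + N) (HH p k j)) →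
    (∃ x ∈ l, x ^ p ^ a ∈ ZZ p G k j (j + N)) → p ^ (a + 1) • ext fP (wd l) = 0
  I2 : ∀ l : List G, b0 j (j + N) ≤ l.length → (∀ x ∈ l, x ∈ XW p G k (j + N) (HH p k j)) →
    ext fP (wd l) = 0
  dec : Dec (Cj (PP p G k) j) (XW p G k (j + N) (HH p k j)) cc uu
  fYeq : ∀ c ∈ Cj (PP p G k) j, ∀ u ∈ XW p G k (j + N) (HH p k j), fY (c * u) = fC c + fP u

namespace Ctx

variable {p : ℕ} [hp : Fact p.Prime] {G : Type} [Group G] {k j N κ κ' : ℕ} {W : Set (List G)}
  {fC χC fP χ fY : G → TT} {cc uu : G → G}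

lemma cc_mem (K : Ctx p G k j N κ κ' W fC χC fP χ fY cc uu) {y : G} {v : ℕ}
    (hy : y ∈ Cj (PP p G k) j ⊔ XW p G k (j + N) (HH p k j)) (hv : v ≤ HH p k j)
    (hyv : y ∈ dimSub p G v) : cc y ∈ dimSub p G v := by
  have h1 := K.dec.eq y hy
  have h2 : cc y = y * (uu y)⁻¹ := eq_mul_inv_of_mul_eq h1.symm
  have h3 : uu y ∈ dimSub p G v := dimSub_anti hv (K.dec.u y hy).2
  rw [h2]
  exact Subgroup.mul_mem _ hyv (Subgroup.inv_mem _ h3)

lemma fY_P (K : Ctx p G k j N κ κ' W fC χC fP χ fY cc uu) {u : G}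
    (hu : u ∈ XW p G k (j + N) (HH p k j)) : fY u = fP u := by
  have := K.fYeq 1 (Subgroup.one_mem _) u hu
  rw [one_mul, K.data.one, zero_add] at this
  exact this

lemma fY_C (K : Ctx p G k j N κ κ' W fC χC fP χ fY cc uu) {c : G}
    (hc : c ∈ Cj (PP p G k) j) : fY c = fC c := by
  have := K.fYeq c hc 1 (Subgroup.one_mem _)
  rw [mul_one, K.fP1, add_zero] at this
  exact this

lemma Z'_le (_ : Ctx p G k j N κ κ' W fC χC fP χ fY cc uu) :
    XW p G k (j + N) (HH p k (j + N)) ≤ ZZ p G k j (j + N) := le_sup_right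

lemma Zj_le (_ : Ctx p G k j N κ κ' W fC χC fP χ fY cc uu) :
    XW p G k j (HH p k j) ≤ ZZ p G k j (j + N) := le_sup_left

lemma Pp (_ : Ctx p G k j N κ κ' W fC χC fP χ fY cc uu) {u : G}
    (hu : u ∈ XW p G k (j + N) (HH p k j)) {b : ℕ} (hb : N ≤ b) :
    u ^ p ^ b ∈ ZZ p G k j (j + N) := le_sup_right (a := XW p G k j (HH p k j)) (P_pow hu hb)

/-- single elements. -/
lemma KY1 (K : Ctx p G k j N κ κ' W fC χC fP χ fY cc uu) {y : G} {v b : ℕ}
    (hy : y ∈ Cj (PP p G k) j ⊔ XW p G k (j + N) (HH p k j)) (hyv : y ∈ XW p G k (j + N) v)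
    (hb : p ^ 3 * HH p k (j + N) ≤ p ^ b * v) : p ^ b • fY y = χ (y ^ p ^ b) := by
  have hp1 := hp.out.one_lt
  have hH' : 0 < HH p k (j + N) := HH_pos K.hk _
  by_cases hyP : y ∈ XW p G k (j + N) (HH p k j)
  · rw [K.fY_P hyP]
    rcases Nat.eq_zero_or_pos b with rfl | hb1
    · have h1 : y ∈ XW p G k (j + N) (HH p k (j + N)) := by
        refine XW_anti ?_ hyv
        have : HH p k (j + N) ≤ p ^ 3 * HH p k (j + N) :=
          Nat.le_mul_of_pos_left _ (pow_pos hp.out.pos 3)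
        simpa using this.trans hb
      have h2 := K.equiP 1 (Subgroup.one_mem _) y (K.Z'_le h1)
      rw [one_mul, K.fP1, zero_add] at h2
      rw [pow_zero, one_smul, pow_one, h2]
    · obtain ⟨b, rfl⟩ := Nat.exists_eq_add_of_le' hb1
      refine K.L b (b + 1) y hyP ?_ le_rfl
      apply K.Z'_le
      refine XW_anti ?_ (XW_pow hyv b)
      have h1 : p * (p ^ 2 * HH p k (j + N)) ≤ p * (p ^ b * v) := by
        calc p * (p ^ 2 * HH p k (j + N)) = p ^ 3 * HH p k (j + N) := by ring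
          _ ≤ p ^ (b + 1) * v := hb
          _ = p * (p ^ b * v) := by ring
      have h2 := Nat.le_of_mul_le_mul_left h1 hp.out.pos
      exact (Nat.le_mul_of_pos_left _ (pow_pos hp.out.pos 2)).trans h2
  · have hv : v < HH p k j := by
      by_contra hcon
      exact hyP (XW_anti (not_lt.1 hcon) hyv)
    have hbN : N + 3 ≤ b := by
      by_contra hcon
      have h1 : p ^ b ≤ p ^ (N + 2) := Nat.pow_le_pow_right hp.out.pos (by omega)
      have h2 : p ^ b * v < p ^ (N + 2) * HH p k j := by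
        calc p ^ b * v ≤ p ^ (N + 2) * v := Nat.mul_le_mul_right _ h1
          _ < p ^ (N + 2) * HH p k j := Nat.mul_lt_mul_of_pos_left hv (pow_pos hp.out.pos _)
      have h3 : p ^ (N + 2) * HH p k j ≤ p ^ 3 * HH p k (j + N) := by
        rw [HH_add]
        calc p ^ (N + 2) * HH p k j ≤ p ^ (N + 3) * HH p k j :=
              Nat.mul_le_mul_right _ (Nat.pow_le_pow_right hp.out.pos (by omega))
          _ = p ^ 3 * (p ^ N * HH p k j) := by rw [pow_add]; ring
      omega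
    have e := K.dec.eq y hy
    have hc := K.dec.c y hy
    have hu := K.dec.u y hy
    have hcom : Commute (cc y) (uu y) := Cj_comm hc hu.2
    have h1 : fY y = fC (cc y) + fP (uu y) := by
      conv_lhs => rw [e]
      exact K.fYeq _ hc _ hu
    have hcv : cc y ∈ XW p G k j v := ⟨hc, K.cc_mem hy hv.le hyv.2⟩
    have hb' : p ^ 3 * HH p k j ≤ p ^ b * v := by
      refine le_trans ?_ hb
      exact Nat.mul_le_mul_left _ (HH_mono (Nat.le_add_right j N))
    have h2 := K.data.single v b (cc y) hcv hb'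
    have h3 := K.L N b (uu y) hu (K.Pp hu le_rfl) (by omega)
    have h4 : cc y ^ p ^ b ∈ XW p G k j (HH p k j) := by
      refine XW_anti ?_ (XW_pow hcv b)
      exact (Nat.le_mul_of_pos_left _ (pow_pos hp.out.pos 3)).trans hb'
    have h5 : y ^ p ^ b = cc y ^ p ^ b * uu y ^ p ^ b := by
      conv_lhs => rw [e]
      exact hcom.mul_pow _
    rw [h1, smul_add, h2, h3, h5, K.homχ _ (K.Zj_le h4) _ (K.Pp hu (by omega)), K.agree _ h4]

omit [Group G] in
lemma le_max {l : List (G × ℕ)} (h : l ≠ []) :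
    ∃ a ∈ l, wt l ≤ l.length * a.2 := by
  induction l with
  | nil => exact absurd rfl h
  | cons x l ih =>
    rcases l with _ | ⟨y, l⟩
    · exact ⟨x, by simp, by simp [wt]⟩
    · obtain ⟨a, ha, h1⟩ := ih (by simp)
      have e : wt (x :: y :: l) = x.2 + wt (y :: l) := by simp [wt]
      rcases le_total x.2 a.2 with hle | hle
      · refine ⟨a, List.mem_cons_of_mem _ ha, ?_⟩
        rw [e, List.length_cons]
        calc x.2 + wt (y :: l) ≤ a.2 + (y :: l).length * a.2 := add_le_add hle h1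
          _ = _ := by ring
      · refine ⟨x, by simp, ?_⟩
        rw [e, List.length_cons]
        calc x.2 + wt (y :: l) ≤ x.2 + (y :: l).length * x.2 :=
              add_le_add le_rfl (h1.trans (Nat.mul_le_mul_left _ hle))
          _ = _ := by ring

/-- splitting of words of `Y`. -/
lemma ev_Y (K : Ctx p G k j N κ κ' W fC χC fP χ fY cc uu) {l : List G}
    (hl : ∀ x ∈ l, x ∈ Cj (PP p G k) j ⊔ XW p G k (j + N) (HH p k j)) :
    ev fY 1 l = ext fC (wd (l.map cc)) + ext fP (wd (l.map uu)) := by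
  have h := ev_split (fY := fY) (fC := fC) (fP := fP) (C := Cj (PP p G k) j)
    (P := XW p G k (j + N) (HH p k j)) (cc := cc) (uu := uu) (l := l)
    (fun c hc u hu => Cj_comm hc hu.2) K.fYeq
    (fun x hx => ⟨K.dec.c x (hl x hx), K.dec.u x (hl x hx), K.dec.eq x (hl x hx)⟩)
    (Subgroup.one_mem _) (Subgroup.one_mem _)
  rw [one_mul] at h
  rw [h, ext_wd, ext_wd]

/-- the `C`-part of a word. -/
lemma KC (K : Ctx p G k j N κ κ' W fC χC fP χ fY cc uu) {b : ℕ} {l : List (G × ℕ)}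
    (h2 : 2 ≤ l.length)
    (hl : ∀ a ∈ l, a.1 ∈ Cj (PP p G k) j ⊔ XW p G k (j + N) (HH p k j))
    (hw : ∀ a ∈ l, a.2 ≤ HH p k j → a.1 ∈ dimSub p G a.2)
    (hP : ∀ a ∈ l, HH p k j < a.2 → a.1 ∈ XW p G k (j + N) (HH p k j))
    (hb : κ * HH p k j ≤ p ^ b * wt l) :
    p ^ b • ext fC (wd ((l.map Prod.fst).map cc)) = 0 := by
  by_cases hcase : ∃ a ∈ l, a.1 ∈ XW p G k (j + N) (HH p k j)
  · obtain ⟨a, ha, haP⟩ := hcase
    have h1 : (1 : G) ∈ (l.map Prod.fst).map cc := by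
      rw [List.mem_map]
      exact ⟨a.1, List.mem_map_of_mem ha, K.dec.c1 _ haP⟩
    rw [ext_wd, ev_one_mem h1, smul_zero]
  · push Not at hcase
    have h3 : ∀ a ∈ l, a.2 ≤ HH p k j := by
      intro a ha
      by_contra hcon
      exact hcase a ha (hP a ha (not_le.1 hcon))
    have h4 := K.data.words b (l.map fun a => (cc a.1, a.2)) (by simpa using h2) (by
      intro a ha
      obtain ⟨a', ha', rfl⟩ := List.mem_map.1 ha
      exact ⟨K.dec.c _ (hl a' ha'), K.cc_mem (hl a' ha') (h3 a' ha') (hw a' ha' (h3 a' ha'))⟩) (by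
      have : wt (l.map fun a => (cc a.1, a.2)) = wt l := by simp [wt, Function.comp_def]
      rw [this]; exact hb)
    have e : (l.map fun a => (cc a.1, a.2)).map Prod.fst = (l.map Prod.fst).map cc := by
      simp [Function.comp_def]
    rwa [e] at h4

/-- words of `Y`, first potential. -/
lemma KY2 (K : Ctx p G k j N κ κ' W fC χC fP χ fY cc uu) {b : ℕ} {l : List (G × ℕ)}
    (h2 : 2 ≤ l.length)
    (hl : ∀ a ∈ l, a.1 ∈ Cj (PP p G k) j ⊔ XW p G k (j + N) (HH p k j))
    (hw : ∀ a ∈ l, a.1 ∈ XW p G k (j + N) a.2)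
    (hb : κ' * HH p k (j + N) ≤ p ^ b * wt l) :
    p ^ b • ev fY 1 (l.map Prod.fst) = 0 := by
  have hlY : ∀ x ∈ l.map Prod.fst, x ∈ Cj (PP p G k) j ⊔ XW p G k (j + N) (HH p k j) := by
    intro x hx
    obtain ⟨a, ha, rfl⟩ := List.mem_map.1 hx
    exact hl a ha
  have hH' : 0 < HH p k (j + N) := HH_pos K.hk _
  rw [K.ev_Y hlY, smul_add, K.KC h2 hl (fun a ha _ => (hw a ha).2)
    (fun a ha h => XW_anti h.le (hw a ha)) (K.hκ.trans hb), zero_add]
  have huP : ∀ x ∈ (l.map Prod.fst).map uu, x ∈ XW p G k (j + N) (HH p k j) := by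
    intro x hx
    obtain ⟨y, hy, rfl⟩ := List.mem_map.1 hx
    exact K.dec.u y (hlY y hy)
  by_cases hlen : b0 j (j + N) ≤ l.length
  · rw [K.I2 _ (by simpa using hlen) huP, smul_zero]
  · push Not at hlen
    obtain ⟨a, ha, hmax⟩ := le_max (l := l) (by rintro rfl; simp at h2)
    have h3 : p * HH p k (j + N) ≤ p ^ b * a.2 := by
      have h4 : b0 j (j + N) * (p * HH p k (j + N)) ≤ b0 j (j + N) * (p ^ b * a.2) := by
        calc b0 j (j + N) * (p * HH p k (j + N)) = p * b0 j (j + N) * HH p k (j + N) := by ring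
          _ ≤ κ' * HH p k (j + N) := Nat.mul_le_mul_right _ K.hb0
          _ ≤ p ^ b * wt l := hb
          _ ≤ p ^ b * (b0 j (j + N) * a.2) := by
              apply Nat.mul_le_mul_left
              exact hmax.trans (Nat.mul_le_mul_right _ hlen.le)
          _ = _ := by ring
      exact Nat.le_of_mul_le_mul_left h4 (Nat.lt_of_lt_of_le (by norm_num) (Nat.le_add_left 3 _))
    have hmem : uu a.1 ∈ (l.map Prod.fst).map uu :=
      List.mem_map_of_mem (List.mem_map_of_mem ha)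
    rcases Nat.eq_zero_or_pos b with rfl | hb1
    · -- `a.1` is in `Z'`
      have h5 : a.1 ∈ XW p G k (j + N) (HH p k (j + N)) := by
        refine XW_anti ?_ (hw a ha)
        rw [pow_zero, one_mul] at h3
        exact (Nat.le_mul_of_pos_left _ hp.out.pos).trans h3
      have h6 : a.1 ∈ XW p G k (j + N) (HH p k j) := Z'_le_P (Nat.le_add_right j N) h5
      rw [K.dec.u1 _ h6] at hmem
      rw [ext_wd, ev_central (K := XW p G k (j + N) (HH p k j)) (Z := ZZ p G k j (j + N))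
        ZZ_central K.equiP huP ⟨a.1, hmem, K.Z'_le h5⟩ (by simpa using h2) (Subgroup.one_mem _),
        smul_zero]
    · obtain ⟨b, rfl⟩ := Nat.exists_eq_add_of_le' hb1
      refine K.I1 b _ (by simpa using h2) huP ⟨uu a.1, hmem, ?_⟩
      have h7 : HH p k (j + N) ≤ p ^ b * a.2 := by
        have : p * HH p k (j + N) ≤ p * (p ^ b * a.2) := by
          calc p * HH p k (j + N) ≤ p ^ (b + 1) * a.2 := h3
            _ = _ := by ring
        exact Nat.le_of_mul_le_mul_left this hp.out.pos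
      by_cases hcase : a.2 ≤ HH p k j
      · apply K.Pp (K.dec.u _ (hl a ha))
        by_contra hcon
        have h8 : p ^ b < p ^ N := Nat.pow_lt_pow_right hp.out.one_lt (not_le.1 hcon)
        rw [HH_add] at h7
        have h9 : p ^ b * a.2 < p ^ N * HH p k j := by
          calc p ^ b * a.2 ≤ p ^ b * HH p k j := Nat.mul_le_mul_left _ hcase
            _ < p ^ N * HH p k j := Nat.mul_lt_mul_of_pos_right h8 (HH_pos K.hk j)
        omega
      · have h6 : a.1 ∈ XW p G k (j + N) (HH p k j) := XW_anti (not_le.1 hcase).le (hw a ha)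
        rw [K.dec.u1 _ h6]
        exact K.Z'_le (XW_anti h7 (XW_pow (hw a ha) b))

end Ctx

end RK43
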