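import Mathlib
import Pool.Agent.Helper43.RK.Stage2

/-! Project RK (MP_aa96c4_al): the stage theorem, part 3: the second potential. -/

namespace RK43

open RKC2 (Cj PP)
open Pool.Agent.Helper27.BE Pool.Agent.Helper60.RK

/-- `Φ(u) = min(p u, u + (p-1) H)`. -/
def Phi (p H u : ℕ) : ℕ := min (p * u) (u + (p - 1) * H)

lemma Phi_mono (p H : ℕ) : Monotone (Phi p H) := fun _ _ h =>
  min_le_min (Nat.mul_le_mul_left _ h) (Nat.add_le_add_right h _)

lemma iter_le_pow (p H b u : ℕ) : (Phi p H)^[b] u ≤ p ^ b * u := by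
  induction b generalizing u with
  | zero => simp
  | succ b ih =>
    rw [Function.iterate_succ_apply]
    refine (ih _).trans ?_
    calc p ^ b * Phi p H u ≤ p ^ b * (p * u) := Nat.mul_le_mul_left _ (min_le_left _ _)
      _ = p ^ (b + 1) * u := by ring

lemma iter_le_add (p H b u : ℕ) : (Phi p H)^[b] u ≤ u + b * ((p - 1) * H) := by
  induction b generalizing u with
  | zero => simp
  | succ b ih =>
    rw [Function.iterate_succ_apply]
    refine (ih _).trans ?_
    calc Phi p H u + b * ((p - 1) * H) ≤ (u + (p - 1) * H) + b * ((p - 1) * H) :=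
          Nat.add_le_add_right (min_le_right _ _) _
      _ = _ := by ring

lemma pot_phi {p H w : ℕ} (hp : 1 ≤ p) (hw : w ≤ H) : Pot p w (fun b u => (Phi p H)^[b] u) := by
  refine ⟨fun b => (Phi_mono p H).iterate b, fun b v i hi => ?_⟩
  change (Phi p H)^[b] (p * w + v) ≤ (Phi p H)^[b + 1] (i * w + v)
  rw [Function.iterate_succ_apply]
  apply (Phi_mono p H).iterate b
  have h1 : w ≤ i * w := Nat.le_mul_of_pos_left _ hi
  apply le_min
  · calc p * w + v ≤ p * (i * w) + p * v :=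
          add_le_add (Nat.mul_le_mul_left _ h1) (Nat.le_mul_of_pos_left _ hp)
      _ = _ := by ring
  · obtain ⟨q, rfl⟩ := Nat.exists_eq_add_of_le' hp
    have h2 : q * w ≤ q * H := Nat.mul_le_mul_left _ hw
    have e : (q + 1) * w = q * w + w := by ring
    rw [Nat.add_sub_cancel]
    omega

lemma pot_psi {p w : ℕ} (hp : 1 ≤ p) : Pot p w (fun b u => p ^ b * u) := by
  refine ⟨fun b _ _ h => Nat.mul_le_mul_left _ h, fun b v i hi => ?_⟩
  change p ^ b * (p * w + v) ≤ p ^ (b + 1) * (i * w + v)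
  have h1 : w ≤ i * w := Nat.le_mul_of_pos_left _ hi
  calc p ^ b * (p * w + v) ≤ p ^ b * (p * (i * w) + p * v) := by
        apply Nat.mul_le_mul_left
        exact add_le_add (Nat.mul_le_mul_left _ h1) (Nat.le_mul_of_pos_left _ hp)
    _ = _ := by ring

/-- a light letter which survives in the second potential. -/
lemma phi_small {p H N b v R : ℕ} (hp : 2 ≤ p) (hv : v ≤ H)
    (hR : p * H + (N + 2) * ((p - 1) * H) < R) (h : R ≤ (Phi p H)^[b] v) :
    p ^ (N + 3) * H ≤ p ^ b * v := by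
  by_contra hcon
  push Not at hcon
  have hp0 : 0 < p := by omega
  rcases Nat.eq_zero_or_pos v with rfl | hv0
  · have := h.trans (iter_le_pow p H b 0)
    rw [mul_zero] at this
    omega
  have hex : ∃ c, H ≤ p ^ c * v := by
    exact ⟨H, (Nat.lt_pow_self (by omega : 1 < p)).le.trans (Nat.le_mul_of_pos_right _ hv0)⟩
  classical
  let c := Nat.find hex
  have hc : H ≤ p ^ c * v := Nat.find_spec hex
  have hc2 : p ^ c * v ≤ p * H := by
    rcases Nat.eq_zero_or_pos c with h0 | h0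
    · rw [h0, pow_zero, one_mul]
      exact hv.trans (Nat.le_mul_of_pos_left _ hp0)
    · obtain ⟨d, hd⟩ := Nat.exists_eq_add_of_le' h0
      have h1 : ¬ H ≤ p ^ d * v := Nat.find_min hex (by change d < c; omega)
      rw [hd]
      calc p ^ (d + 1) * v = p * (p ^ d * v) := by ring
        _ ≤ p * H := Nat.mul_le_mul_left _ (by omega)
  by_cases hcb : c ≤ b
  · obtain ⟨m, rfl⟩ := Nat.exists_eq_add_of_le' hcb
    have hm : m ≤ N + 2 := by
      by_contra hm
      have h1 : p ^ (N + 3) * H ≤ p ^ m * H :=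
        Nat.mul_le_mul_right _ (Nat.pow_le_pow_right hp0 (by omega))
      have h2 : p ^ m * H ≤ p ^ (m + c) * v := by
        calc p ^ m * H ≤ p ^ m * (p ^ c * v) := Nat.mul_le_mul_left _ hc
          _ = _ := by ring
      omega
    rw [Function.iterate_add_apply] at h
    have h3 := (h.trans (iter_le_add p H m _)).trans
      (Nat.add_le_add_right ((iter_le_pow p H c v).trans hc2) _)
    have h4 : m * ((p - 1) * H) ≤ (N + 2) * ((p - 1) * H) := Nat.mul_le_mul_right _ hm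
    omega
  · have h1 : ¬ H ≤ p ^ b * v := Nat.find_min hex (not_le.1 hcb)
    have h2 := h.trans (iter_le_pow p H b v)
    have h3 : H ≤ p * H := Nat.le_mul_of_pos_left _ hp0
    omega

/-- `v_max`. -/
def vmax (p k j N : ℕ) : ℕ := HH p k j + N * (p * HH p k j)

lemma RR_eq (p k κ j N : ℕ) : RR p k κ j (j + N) =
    (b0 j (j + N) * (1 + (N + 1) * p) + (N + 4) * p + κ) * HH p k j + 1 := by
  rw [RR, Nat.add_sub_cancel_left]

lemma b0_three (j j' : ℕ) : 3 ≤ b0 j j' := Nat.le_add_left 3 _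

lemma RR_small {p k κ j N : ℕ} (hp : 1 ≤ p) :
    p * HH p k j + (N + 2) * ((p - 1) * HH p k j) < RR p k κ j (j + N) := by
  rw [RR_eq]
  obtain ⟨q, rfl⟩ := Nat.exists_eq_add_of_le' hp
  rw [Nat.add_sub_cancel]
  have h3 := b0_three j (j + N)
  set B := b0 j (j + N)
  set H := HH (q + 1) k j
  have h1 : (q + 1) * H + (N + 2) * (q * H) ≤ ((N + 4) * (q + 1)) * H := by nlinarith
  have h2 : ((N + 4) * (q + 1)) * H ≤ (B * (1 + (N + 1) * (q + 1)) + (N + 4) * (q + 1) + κ) * H := by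
    apply Nat.mul_le_mul_right
    omega
  omega

lemma RR_big {p k κ j N : ℕ} (hp : 1 ≤ p) :
    vmax p k j N + (N + 2) * ((p - 1) * HH p k j) < RR p k κ j (j + N) := by
  rw [RR_eq, vmax]
  obtain ⟨q, rfl⟩ := Nat.exists_eq_add_of_le' hp
  rw [Nat.add_sub_cancel]
  have h3 := b0_three j (j + N)
  set B := b0 j (j + N)
  set H := HH (q + 1) k j
  have h4 : 3 * (1 + (N + 1) * (q + 1)) * H ≤ B * (1 + (N + 1) * (q + 1)) * H :=
    Nat.mul_le_mul_right _ (Nat.mul_le_mul_right _ h3)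
  nlinarith [Nat.zero_le (κ * H), Nat.zero_le H, Nat.zero_le (q * H), Nat.zero_le (N * H),
    Nat.zero_le (N * q * H), Nat.zero_le ((N + 4) * (q + 1) * H)]

lemma RR_words {p k κ j N b wt' : ℕ} (hp : 1 ≤ p)
    (h1 : wt' ≤ b0 j (j + N) * vmax p k j N) (hb : b ≤ N) :
    wt' + b * ((p - 1) * HH p k j) < RR p k κ j (j + N) := by
  rw [RR_eq]
  rw [vmax] at h1
  obtain ⟨q, rfl⟩ := Nat.exists_eq_add_of_le' hp
  rw [Nat.add_sub_cancel]
  set B := b0 j (j + N)
  set H := HH (q + 1) k j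
  have h2 : b * (q * H) ≤ N * (q * H) := Nat.mul_le_mul_right _ hb
  have h5 : B * (H + N * ((q + 1) * H)) ≤ B * (1 + (N + 1) * (q + 1)) * H := by
    have : H + N * ((q + 1) * H) ≤ (1 + (N + 1) * (q + 1)) * H := by nlinarith
    calc B * (H + N * ((q + 1) * H)) ≤ B * ((1 + (N + 1) * (q + 1)) * H) :=
          Nat.mul_le_mul_left _ this
      _ = _ := by ring
  have h6 : N * (q * H) ≤ (N + 4) * (q + 1) * H := by nlinarith
  have h7 : (B * (1 + (N + 1) * (q + 1)) + (N + 4) * (q + 1) + κ) * H =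
      B * (1 + (N + 1) * (q + 1)) * H + (N + 4) * (q + 1) * H + κ * H := by ring
  omega

lemma RR_kap {p k κ j N : ℕ} : κ * HH p k j ≤ RR p k κ j (j + N) := by
  rw [RR_eq]
  have : κ * HH p k j ≤ (b0 j (j + N) * (1 + (N + 1) * p) + (N + 4) * p + κ) * HH p k j :=
    Nat.mul_le_mul_right _ (Nat.le_add_left _ _)
  omega

namespace Ctx

variable {p : ℕ} [hp : Fact p.Prime] {G : Type} [Group G] {k j N κ κ' : ℕ} {W : Set (List G)}
  {fC χC fP χ fY : G → TT} {cc uu : G → G}

/-- words of `Y`, second potential. -/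
lemma KPhi2 (K : Ctx p G k j N κ κ' W fC χC fP χ fY cc uu) {b : ℕ} {l : List (G × ℕ)}
    (h2 : 2 ≤ l.length)
    (hl : ∀ a ∈ l, a.1 ∈ Cj (PP p G k) j ⊔ XW p G k (j + N) (HH p k j))
    (hw : ∀ a ∈ l, a.2 ≤ HH p k j → a.1 ∈ dimSub p G a.2)
    (hP : ∀ a ∈ l, HH p k j < a.2 → a.1 ∈ XW p G k (j + N) (HH p k j))
    (hmax : ∀ a ∈ l, a.2 ≤ vmax p k j N)
    (hR : RR p k κ j (j + N) ≤ (Phi p (HH p k j))^[b] (wt l)) :
    p ^ b • ev fY 1 (l.map Prod.fst) = 0 := by
  have hlY : ∀ x ∈ l.map Prod.fst, x ∈ Cj (PP p G k) j ⊔ XW p G k (j + N) (HH p k j) := by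
    intro x hx
    obtain ⟨a, ha, rfl⟩ := List.mem_map.1 hx
    exact hl a ha
  rw [K.ev_Y hlY, smul_add, K.KC h2 hl hw hP ((RR_kap.trans hR).trans (iter_le_pow _ _ _ _)),
    zero_add]
  have huP : ∀ x ∈ (l.map Prod.fst).map uu, x ∈ XW p G k (j + N) (HH p k j) := by
    intro x hx
    obtain ⟨y, hy, rfl⟩ := List.mem_map.1 hx
    exact K.dec.u y (hlY y hy)
  by_cases hlen : b0 j (j + N) ≤ l.length
  · rw [K.I2 _ (by simpa using hlen) huP, smul_zero]
  · push Not at hlen
    obtain ⟨a, ha, h4⟩ := le_max (l := l) (by rintro rfl; simp at h2)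
    have h5 : wt l ≤ b0 j (j + N) * vmax p k j N :=
      h4.trans (Nat.mul_le_mul hlen.le (hmax a ha))
    have hbN : N + 1 ≤ b := by
      by_contra hcon
      have h6 := RR_words (κ := κ) hp.out.one_lt.le h5 (b := b) (by omega)
      have h7 := hR.trans (iter_le_add _ _ _ _)
      omega
    obtain ⟨d, rfl⟩ := Nat.exists_eq_add_of_le hbN
    have h8 := K.I1 N _ (by simpa using h2) huP ⟨uu a.1,
      List.mem_map_of_mem (List.mem_map_of_mem ha), K.Pp (K.dec.u _ (hl a ha)) le_rfl⟩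
    rw [add_comm, pow_add, mul_smul, h8, smul_zero]

end Ctx

end RK43
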