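import Mathlib
import Pool.Agent.Helper43.RK.Stage3
import Pool.Agent.Helper43.RK.Defs2
import Pool.Agent.Helper43.RK.Defs3

/-! Project RK (MP_aa96c4_al): the stage theorem, part 4: the group `E` and the digit extension. -/

namespace RK43

open RKC2 (Cj PP)
open Pool.Agent.Helper27.BE Pool.Agent.Helper60.RK

section series

variable {p : ℕ} [hp : Fact p.Prime] {G : Type} [Group G]

/-- projection to `G`. -/
def pr (E : Subgroup (G × Multiplicative TT)) : E →* G :=
  (MonoidHom.fst G (Multiplicative TT)).comp E.subtype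

/-- the second coordinate. -/
def ta (E : Subgroup (G × Multiplicative TT)) (g : E) : TT := Multiplicative.toAdd g.1.2

lemma ta_mul (E : Subgroup (G × Multiplicative TT)) (g h : E) : ta E (g * h) = ta E g + ta E h := rfl

lemma ta_one (E : Subgroup (G × Multiplicative TT)) : ta E 1 = 0 := rfl

/-- the E-series inside `E_1`. -/
def SE (Ew : ℕ → Subgroup (G × Multiplicative TT)) (v : ℕ) : Subgroup (Ew 1) :=
  (Ew v).subgroupOf (Ew 1)

lemma mem_SE {Ew : ℕ → Subgroup (G × Multiplicative TT)} {v : ℕ} {g : Ew 1} :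
    g ∈ SE Ew v ↔ (g : G × Multiplicative TT) ∈ Ew v := Subgroup.mem_subgroupOf

/-- the extended series. -/
noncomputable def SP (p : ℕ) [Fact p.Prime] (k j N : ℕ) (Ew : ℕ → Subgroup (G × Multiplicative TT))
    (v : ℕ) : Subgroup (Ew 1) :=
  if v ≤ HH p k j then SE Ew v
  else if v ≤ vmax p k j N then SE Ew (HH p k j) ⊓ (QV p G k j (v - HH p k j)).comap (pr (Ew 1))
  else ⊥

/-- `F = E ∩ (Y × T)`. -/
noncomputable def FF (p : ℕ) [Fact p.Prime] (k j N : ℕ) (Ew : ℕ → Subgroup (G × Multiplicative TT)) :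
    Subgroup (Ew 1) :=
  (Cj (PP p G k) j ⊔ XW p G k (j + N) (HH p k j)).comap (pr (Ew 1))

variable {k j N : ℕ} {χ : G → TT} {Ew : ℕ → Subgroup (G × Multiplicative TT)}

lemma SE_pr (E : ESer p G k j χ Ew) {v : ℕ} {g : Ew 1} (hg : g ∈ SE Ew v) :
    pr (Ew 1) g ∈ XW p G k j v := ((E.mem v g.1.1 (ta _ g)).1 (mem_SE.1 hg)).1

lemma SE_one : SE Ew 1 = ⊤ := Subgroup.subgroupOf_self _

lemma SE_anti (E : ESer p G k j χ Ew) : Antitone (SE Ew) := fun _ _ h _ hg =>
  mem_SE.2 (E.anti h (mem_SE.1 hg))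

lemma SE_comm (E : ESer p G k j χ Ew) {a b : ℕ} {x y : Ew 1} (hx : x ∈ SE Ew a)
    (hy : y ∈ SE Ew b) : x⁻¹ * y⁻¹ * x * y ∈ SE Ew (a + b) :=
  mem_SE.2 (E.comm a b _ (mem_SE.1 hx) _ (mem_SE.1 hy))

lemma SE_pow (E : ESer p G k j χ Ew) {a : ℕ} {x : Ew 1} (hx : x ∈ SE Ew a) :
    x ^ p ∈ SE Ew (p * a) := mem_SE.2 (E.pow a _ (mem_SE.1 hx))

lemma SE_normal (E : ESer p G k j χ Ew) (v : ℕ) : (SE Ew v).Normal := by
  constructor
  intro x hx g
  have hg : g⁻¹ ∈ SE Ew 0 := by
    rw [mem_SE, E.zero]; exact (g⁻¹).2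
  have h := SE_comm E hx hg
  rw [add_zero, inv_inv] at h
  have e : g * x * g⁻¹ = x * (x⁻¹ * g * x * g⁻¹) := by group
  rw [e]
  exact Subgroup.mul_mem _ hx h

end series

section QVl

variable {p : ℕ} [hp : Fact p.Prime] {G : Type} [Group G]

lemma pw_dimSub_le (s a : ℕ) : RKP.pw (p ^ s) (dimSub p G a) ≤ dimSub p G (p ^ s * a) := by
  rw [RKP.pw_le]
  intro r hr
  have := dimSub_pow_prime_pow hr s
  rwa [mul_comm] at this

lemma QV_le {k j : ℕ} (hk : 1 ≤ k) (ha : Antitone (QV p G k j)) {s u : ℕ}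
    (h : s * (p * HH p k j) + (p - 1) * HH p k j ≤ u) : QV p G k j u ≤ PP p G k (j + (s + 1)) := by
  refine (ha h).trans ?_
  have hH : 0 < HH p k j := HH_pos hk j
  have hpp := hp.out.one_lt
  have h1 : (p - 1) * HH p k j < p * HH p k j := Nat.mul_lt_mul_of_pos_right (by omega) hH
  have h2 : (s * (p * HH p k j) + (p - 1) * HH p k j) / (p * HH p k j) = s := by
    rw [mul_comm s, Nat.mul_add_div (by positivity), Nat.div_eq_of_lt h1, add_zero]
  have h3 : (s * (p * HH p k j) + (p - 1) * HH p k j) % (p * HH p k j) = (p - 1) * HH p k j := by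
    rw [mul_comm s, Nat.mul_add_mod, Nat.mod_eq_of_lt h1]
  rw [QV, h2, h3, min_self]
  have e : HH p k j + (p - 1) * HH p k j = p * HH p k j := by
    obtain ⟨q, hq⟩ := Nat.exists_eq_add_of_le' hpp.le
    rw [hq, Nat.add_sub_cancel]; ring
  rw [e]
  refine (pw_dimSub_le s _).trans ?_
  rw [PP_eq, HH_add]
  apply dimSub_anti
  rw [pow_succ, mul_assoc]

end QVl

section main

variable {p : ℕ} [hp : Fact p.Prime] {G : Type} [Group G] {k j N : ℕ} {χ : G → TT}
  {Ew : ℕ → Subgroup (G × Multiplicative TT)}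

omit hp in
lemma vmax_big (hN : 1 ≤ N) : HH p k j + p * HH p k j ≤ vmax p k j N := by
  rw [vmax]
  have : p * HH p k j ≤ N * (p * HH p k j) := Nat.le_mul_of_pos_left _ hN
  omega

lemma two_H_le : 2 * HH p k j ≤ p * HH p k j := Nat.mul_le_mul_right _ hp.out.two_le

lemma SP_of_le {v : ℕ} (h : v ≤ HH p k j) : SP p k j N Ew v = SE Ew v := if_pos h

lemma SP_mid {v : ℕ} (h : HH p k j < v) (h' : v ≤ vmax p k j N) :
    SP p k j N Ew v = SE Ew (HH p k j) ⊓ (QV p G k j (v - HH p k j)).comap (pr (Ew 1)) := by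
  rw [SP, if_neg (not_le.2 h), if_pos h']

lemma SP_big (hN : 1 ≤ N) {v : ℕ} (h : vmax p k j N < v) : SP p k j N Ew v = ⊥ := by
  have := vmax_big (p := p) (k := k) (j := j) hN
  rw [SP, if_neg (by omega), if_neg (by omega)]

lemma SP_anti (E : ESer p G k (j + N) χ Ew) (hN : 1 ≤ N) (hQ : Antitone (QV p G k j)) :
    Antitone (SP p k j N Ew) := by
  intro v v' h
  by_cases h1 : v' ≤ HH p k j
  · rw [SP_of_le h1, SP_of_le (h.trans h1)]
    exact SE_anti E h
  · by_cases h2 : v' ≤ vmax p k j N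
    · rw [SP_mid (not_le.1 h1) h2]
      by_cases h3 : v ≤ HH p k j
      · rw [SP_of_le h3]
        exact inf_le_left.trans (SE_anti E h3)
      · rw [SP_mid (not_le.1 h3) (h.trans h2)]
        exact inf_le_inf_left _ (Subgroup.comap_mono (hQ (by omega)))
    · rw [SP_big hN (not_le.1 h2)]
      exact bot_le

/-- commutators vanish when the first coordinate is central. -/
lemma comm_eq_one {E : Subgroup (G × Multiplicative TT)} {x y : E}
    (h : pr E x * pr E y = pr E y * pr E x) : x⁻¹ * y⁻¹ * x * y = 1 := by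
  apply Subtype.ext
  apply Prod.ext
  · change (pr E x)⁻¹ * (pr E y)⁻¹ * pr E x * pr E y = 1
    rw [mul_assoc, h]; group
  · change (x.1.2)⁻¹ * (y.1.2)⁻¹ * x.1.2 * y.1.2 = 1
    rw [mul_assoc, mul_comm x.1.2 y.1.2]; group

lemma SP_comm (E : ESer p G k (j + N) χ Ew) (hk : 1 ≤ k) (hN : 1 ≤ N)
    (hQa : Antitone (QV p G k j))
    (hQd : ∀ u, u ≤ (p - 1) * HH p k j → QV p G k j u = dimSub p G (HH p k j + u))
    (hQc : ∀ u w, 1 ≤ w → w < HH p k j → ∀ x ∈ QV p G k j u, ∀ y ∈ dimSub p G w,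
        x⁻¹ * y⁻¹ * x * y ∈ QV p G k j (u + w)) (v w : ℕ) (hw1 : 1 ≤ w)
    (hw : w < HH p k j) (x : Ew 1) (hx : x ∈ SP p k j N Ew v) (y : Ew 1)
    (hy : y ∈ SP p k j N Ew w) : x⁻¹ * y⁻¹ * x * y ∈ SP p k j N Ew (v + w) := by
  have h2H := two_H_le (p := p) (k := k) (j := j)
  have hvm := vmax_big (p := p) (k := k) (j := j) hN
  have hH := HH_pos (p := p) hk j
  have hpH : HH p k j ≤ (p - 1) * HH p k j :=
    Nat.le_mul_of_pos_left _ (by have := hp.out.two_le; omega)
  rw [SP_of_le hw.le] at hy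
  by_cases h1 : v ≤ HH p k j
  · rw [SP_of_le h1] at hx
    have hc := SE_comm E hx hy
    by_cases h2 : v + w ≤ HH p k j
    · rw [SP_of_le h2]; exact hc
    · rw [SP_mid (not_le.1 h2) (by omega)]
      refine Subgroup.mem_inf.2 ⟨SE_anti E (by omega) hc, Subgroup.mem_comap.2 ?_⟩
      rw [hQd _ (by omega)]
      have := (SE_pr E hc).2
      have e : HH p k j + (v + w - HH p k j) = v + w := by omega
      rwa [e]
  · push Not at h1
    by_cases h2 : v ≤ vmax p k j N
    · rw [SP_mid h1 h2] at hx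
      obtain ⟨hx1, hx2⟩ := hx
      by_cases h3 : v + w ≤ vmax p k j N
      · rw [SP_mid (by omega) h3]
        refine Subgroup.mem_inf.2 ⟨SE_anti E (by omega) (SE_comm E hx1 hy),
          Subgroup.mem_comap.2 ?_⟩
        have := hQc _ w hw1 hw _ hx2 _ (SE_pr E hy).2
        have e : v + w - HH p k j = v - HH p k j + w := by omega
        rw [e]
        exact this
      · push Not at h3
        have h4 : pr (Ew 1) x ∈ XW p G k (j + N) (HH p k (j + N)) := by
          refine ⟨(SE_pr E hx1).1, ?_⟩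
          obtain ⟨M, rfl⟩ := Nat.exists_eq_add_of_le' hN
          refine QV_le hk hQa (s := M) ?_ hx2
          rw [vmax] at h3
          have e1 : (M + 1) * (p * HH p k j) = M * (p * HH p k j) + p * HH p k j := by ring
          have e2 : (p - 1) * HH p k j + HH p k j = p * HH p k j := by
            obtain ⟨q, hq⟩ := Nat.exists_eq_add_of_le' hp.out.one_lt.le
            rw [hq, Nat.add_sub_cancel]; ring
          omega
        rw [comm_eq_one (E.centr _ h4 _ (SE_pr E hy).1)]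
        exact Subgroup.one_mem _
    · rw [SP_big hN (not_le.1 h2), Subgroup.mem_bot] at hx
      subst hx
      have e : (1 : Ew 1)⁻¹ * y⁻¹ * 1 * y = 1 := by group
      rw [e]
      exact Subgroup.one_mem _

lemma SP_pow (E : ESer p G k (j + N) χ Ew) (hN : 1 ≤ N)
    (hQd : ∀ u, u ≤ (p - 1) * HH p k j → QV p G k j u = dimSub p G (HH p k j + u))
    (w : ℕ) (hw : w < HH p k j) (x : Ew 1)
    (hx : x ∈ SP p k j N Ew w) : x ^ p ∈ SP p k j N Ew (p * w) := by
  have hvm := vmax_big (p := p) (k := k) (j := j) hN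
  rw [SP_of_le hw.le] at hx
  have hc := SE_pow E hx
  by_cases h2 : p * w ≤ HH p k j
  · rw [SP_of_le h2]; exact hc
  · have h3 : p * w ≤ p * HH p k j := Nat.mul_le_mul_left _ hw.le
    have e2 : (p - 1) * HH p k j + HH p k j = p * HH p k j := by
      obtain ⟨q, hq⟩ := Nat.exists_eq_add_of_le' hp.out.one_lt.le
      rw [hq, Nat.add_sub_cancel]; ring
    rw [SP_mid (not_le.1 h2) (by omega)]
    refine Subgroup.mem_inf.2 ⟨SE_anti E (by omega) hc, Subgroup.mem_comap.2 ?_⟩
    rw [hQd _ (by omega)]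
    have := (SE_pr E hc).2
    have e : HH p k j + (p * w - HH p k j) = p * w := by omega
    rwa [e]

lemma FF_normal : (FF p k j N Ew).Normal := by
  unfold FF
  have : (Cj (PP p G k) j ⊔ XW p G k (j + N) (HH p k j)).Normal := Subgroup.sup_normal _ _
  exact Subgroup.normal_comap _

lemma FF_index [Finite G] : (FF p k j N Ew).index ≠ 0 := by
  rw [FF, Subgroup.index_comap, Subgroup.relIndex]
  exact Subgroup.index_ne_zero_of_finite

lemma SE_le_FF (E : ESer p G k (j + N) χ Ew) : SE Ew (HH p k j) ≤ FF p k j N Ew := by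
  intro x hx
  rw [FF, Subgroup.mem_comap]
  exact Subgroup.mem_sup_right (SE_pr E hx)

end main

end RK43
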