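import Mathlib
import Pool.Agent.Helper43.RK.Stage4

/-! Project RK (MP_aa96c4_al): the stage theorem, part 5: the kills on `F_0`. -/

namespace RK43

open RKC2 (Cj PP)
open Pool.Agent.Helper27.BE Pool.Agent.Helper60.RK

section

variable {p : ℕ} [hp : Fact p.Prime] {G : Type} [Group G]

/-- `f_0 (y, τ) = f_Y y + τ`. -/
noncomputable def f0 (fY : G → TT) (E : Subgroup (G × Multiplicative TT)) (g : E) : TT :=
  fY (pr E g) + ta E g

lemma ev_f0 (fY : G → TT) (E : Subgroup (G × Multiplicative TT)) (g : E) (l : List E) :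
    ev (f0 fY E) g l = ev fY (pr E g) (l.map (pr E)) + ev (ta E) g l := by
  have h := ev_add (fun x : E => fY (pr E x)) (ta E) l g
  rw [ev_map] at h
  exact h

lemma ev_ta {E : Subgroup (G × Multiplicative TT)} {l : List E} (h2 : 2 ≤ l.length) (g : E) :
    ev (ta E) g l = 0 :=
  ev_hom_two (K := ⊤) (fun x _ y _ => ta_mul E x y) (fun _ _ => trivial) h2 trivial

variable {k j N κ κ' : ℕ} {W : Set (List G)}
  {fC χC fP χ fY : G → TT} {cc uu : G → G} {Ew : ℕ → Subgroup (G × Multiplicative TT)}

lemma fY_one (K : Ctx p G k j N κ κ' W fC χC fP χ fY cc uu) : fY 1 = 0 := by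
  rw [K.fY_C (Subgroup.one_mem _), K.data.one]

lemma f0_one (K : Ctx p G k j N κ κ' W fC χC fP χ fY cc uu) : f0 fY (Ew 1) 1 = 0 := by
  rw [f0, map_one, fY_one K, ta_one, add_zero]

lemma single0 (K : Ctx p G k j N κ κ' W fC χC fP χ fY cc uu) (E : ESer p G k (j + N) χ Ew)
    {g : Ew 1} {v b : ℕ} (hg : g ∈ FF p k j N Ew) (hgv : g ∈ SE Ew v)
    (hb : p ^ 3 * HH p k (j + N) ≤ p ^ b * v) : p ^ b • f0 fY (Ew 1) g = 0 := by
  rw [f0, smul_add, K.KY1 (Subgroup.mem_comap.1 hg) (SE_pr E hgv) hb, add_comm]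
  exact E.shift v b g.1.1 (ta _ g) (mem_SE.1 hgv) hb

lemma killPsi0 (K : Ctx p G k j N κ κ' W fC χC fP χ fY cc uu) (E : ESer p G k (j + N) χ Ew) :
    Kill p (FF p k j N Ew) (SE Ew) (f0 fY (Ew 1)) (fun b u => p ^ b * u) (κ' * HH p k (j + N)) := by
  intro b l hl hw hR
  rw [ext_wd]
  by_cases h2 : 2 ≤ l.length
  · rw [ev_f0, ev_ta (by simpa using h2), add_zero, map_one]
    have h := K.KY2 (b := b) (l := l.map fun a => (pr (Ew 1) a.1, a.2)) (by simpa using h2) (by
      intro a ha
      obtain ⟨a', ha', rfl⟩ := List.mem_map.1 ha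
      exact Subgroup.mem_comap.1 (hw a' ha').1) (by
      intro a ha
      obtain ⟨a', ha', rfl⟩ := List.mem_map.1 ha
      exact SE_pr E (hw a' ha').2) (by
      have : wt (l.map fun a => (pr (Ew 1) a.1, a.2)) = wt l := by simp [wt, Function.comp_def]
      rw [this]; exact hR)
    have e : (l.map fun a => (pr (Ew 1) a.1, a.2)).map Prod.fst =
        (l.map Prod.fst).map (pr (Ew 1)) := by simp [Function.comp_def]
    rwa [e] at h
  · rcases l with _ | ⟨a, l⟩
    · exact absurd rfl hl
    · rcases l with _ | ⟨a', l⟩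
      · have h1 := hw a (by simp)
        have e : ev (f0 fY (Ew 1)) 1 (List.map Prod.fst [a]) = f0 fY (Ew 1) a.1 := by
          rw [List.map_cons, List.map_nil, ev_cons, ev_nil, ev_nil, one_mul, f0_one K, sub_zero]
        rw [e]
        refine single0 K E h1.1 h1.2 ?_
        have e2 : wt [a] = a.2 := by simp [wt]
        rw [e2] at hR
        exact (Nat.mul_le_mul_right _ K.hp3).trans hR
      · simp at h2

lemma killPhi0 (K : Ctx p G k j N κ κ' W fC χC fP χ fY cc uu) (E : ESer p G k (j + N) χ Ew) :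
    Kill p (FF p k j N Ew) (SP p k j N Ew) (f0 fY (Ew 1)) (fun b u => (Phi p (HH p k j))^[b] u)
      (RR p k κ j (j + N)) := by
  intro b l hl hw hR
  rw [ext_wd]
  have hH := HH_pos (p := p) K.hk j
  by_cases hbig : ∃ a ∈ l, vmax p k j N < a.2
  · obtain ⟨a, ha, hav⟩ := hbig
    have h1 := (hw a ha).2
    rw [SP_big K.hN hav, Subgroup.mem_bot] at h1
    have h2 : (1 : Ew 1) ∈ l.map Prod.fst := by
      rw [← h1]; exact List.mem_map_of_mem ha
    rw [ev_one_mem h2, smul_zero]
  push Not at hbig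
  have hmid : ∀ a ∈ l, HH p k j < a.2 → a.1 ∈ SE Ew (HH p k j) := by
    intro a ha h
    have h1 := (hw a ha).2
    rw [SP_mid h (hbig a ha)] at h1
    exact h1.1
  have hlow : ∀ a ∈ l, a.2 ≤ HH p k j → a.1 ∈ SE Ew a.2 := by
    intro a ha h
    have h1 := (hw a ha).2
    rwa [SP_of_le h] at h1
  by_cases h2 : 2 ≤ l.length
  · rw [ev_f0, ev_ta (by simpa using h2), add_zero, map_one]
    have h := K.KPhi2 (b := b) (l := l.map fun a => (pr (Ew 1) a.1, a.2)) (by simpa using h2) (by
      intro a ha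
      obtain ⟨a', ha', rfl⟩ := List.mem_map.1 ha
      exact Subgroup.mem_comap.1 (hw a' ha').1) (by
      intro a ha hle
      obtain ⟨a', ha', rfl⟩ := List.mem_map.1 ha
      exact (SE_pr E (hlow a' ha' hle)).2) (by
      intro a ha hlt
      obtain ⟨a', ha', rfl⟩ := List.mem_map.1 ha
      exact SE_pr E (hmid a' ha' hlt)) (by
      intro a ha
      obtain ⟨a', ha', rfl⟩ := List.mem_map.1 ha
      exact hbig a' ha') (by
      have : wt (l.map fun a => (pr (Ew 1) a.1, a.2)) = wt l := by simp [wt, Function.comp_def]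
      rw [this]; exact hR)
    have e : (l.map fun a => (pr (Ew 1) a.1, a.2)).map Prod.fst =
        (l.map Prod.fst).map (pr (Ew 1)) := by simp [Function.comp_def]
    rwa [e] at h
  · rcases l with _ | ⟨a, l⟩
    · exact absurd rfl hl
    · rcases l with _ | ⟨a', l⟩
      · have h1 := hw a (by simp)
        have e : ev (f0 fY (Ew 1)) 1 (List.map Prod.fst [a]) = f0 fY (Ew 1) a.1 := by
          rw [List.map_cons, List.map_nil, ev_cons, ev_nil, ev_nil, one_mul, f0_one K, sub_zero]
        rw [e]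
        have e2 : wt [a] = a.2 := by simp [wt]
        rw [e2] at hR
        have e3 : p ^ 3 * HH p k (j + N) = p ^ (N + 3) * HH p k j := by
          rw [HH_add, pow_add]; ring
        by_cases hle : a.2 ≤ HH p k j
        · refine single0 K E h1.1 (hlow a (by simp) hle) ?_
          rw [e3]
          exact phi_small hp.out.two_le hle (RR_small hp.out.one_lt.le) hR
        · refine single0 K E h1.1 (hmid a (by simp) (not_le.1 hle)) ?_
          rw [e3]
          apply Nat.mul_le_mul_right
          apply Nat.pow_le_pow_right hp.out.pos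
          by_contra hcon
          have h3 := RR_big (p := p) (k := k) (κ := κ) (j := j) (N := N) hp.out.one_lt.le
          have h4 := hR.trans (iter_le_add _ _ _ _)
          have h5 := hbig a (by simp)
          have h6 : b * ((p - 1) * HH p k j) ≤ (N + 2) * ((p - 1) * HH p k j) :=
            Nat.mul_le_mul_right _ (by omega)
          omega
      · simp at h2

end

end RK43
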