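import Mathlib
import Pool.Agent.Helper43.RK.Stage5

/-! Project RK (MP_aa96c4_al): the stage theorem, part 6. -/

namespace RK43

open RKC2 (Cj PP)
open Pool.Agent.Helper27.BE Pool.Agent.Helper60.RK

section

variable {p : ℕ} [hp : Fact p.Prime] {G : Type} [Group G]
  {k j N κ κ' : ℕ} {W : Set (List G)}
  {fC χC fP χ fY : G → TT} {cc uu : G → G} {Ew : ℕ → Subgroup (G × Multiplicative TT)}

/-- the properties of `QV` for one `G`. -/
structure QF (p : ℕ) [Fact p.Prime] (G : Type) [Group G] (k j : ℕ) : Prop where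
  anti : Antitone (QV p G k j)
  low : ∀ u, u ≤ (p - 1) * HH p k j → QV p G k j u = dimSub p G (HH p k j + u)
  comm : ∀ u w, 1 ≤ w → w < HH p k j → ∀ x ∈ QV p G k j u, ∀ y ∈ dimSub p G w,
        x⁻¹ * y⁻¹ * x * y ∈ QV p G k j (u + w)

theorem exists_digit [Finite G] (hCE : ChainExists p) (hCP : ChainProps p)
    (K : Ctx p G k j N κ κ' W fC χC fP χ fY cc uu) (E : ESer p G k (j + N) χ Ew)
    (Q : QF p G k j) :
    ∃ (l : List (Ew 1 × ℕ)) (f' : Ew 1 → TT),
      DigitExt p (FF p k j N Ew) l (f0 fY (Ew 1)) f' ∧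
      Kill p ⊤ (SE Ew) f' (fun b u => p ^ b * u) (κ' * HH p k (j + N)) ∧
      Kill p ⊤ (SP p k j N Ew) f' (fun b u => (Phi p (HH p k j))^[b] u) (RR p k κ j (j + N)) ∧
      (∀ v, ∀ x ∈ SE Ew v, ∃ as : List ℕ, as.length = l.length ∧ (∀ a ∈ as, a < p) ∧
        ∃ y ∈ FF p k j N Ew, y ∈ SE Ew v ∧ x = dprod l as * y) ∧
      (∀ x : Ew 1, ∃ as : List ℕ, as.length = l.length ∧ (∀ a ∈ as, a < p) ∧
        ∃ y ∈ FF p k j N Ew, x = dprod l as * y) := by
  obtain ⟨l, hl1, -, hch⟩ := hCE (SE Ew) (FF p k j N Ew) (HH p k j) (SE_anti E) SE_one FF_normal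
    FF_index (SE_normal E) (SE_le_FF E) (fun v w _ _ _ x hx y hy => SE_comm E hx hy)
    (fun w _ x hx => SE_anti E (min_le_right _ _) (SE_pow E hx))
  have c1 := hch (SE Ew) (SE_anti E) (fun _ _ => rfl)
    (fun v w _ _ _ x hx y hy => SE_comm E hx hy) (fun w _ _ x hx => SE_pow E hx)
  have c2 := hch (SP p k j N Ew) (SP_anti E K.hN Q.anti) (fun v h => SP_of_le h)
    (fun v w _ h1 h2 x hx y hy => SP_comm E K.hk K.hN Q.anti Q.low Q.comm v w h1 h2 x hx y hy)
    (fun w _ h2 x hx => SP_pow E K.hN Q.low w h2 x hx)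
  obtain ⟨-, d1, d2, d3, d4⟩ := hCP _ _ _ _ c1
  obtain ⟨-, -, -, -, d5⟩ := hCP _ _ _ _ c2
  obtain ⟨f', hf'⟩ := d3 (f0 fY (Ew 1))
  refine ⟨l, f', hf', ?_, ?_, fun v x hx => d1 v x trivial hx, fun x => d2 x trivial⟩
  · exact d4 _ _ (f0_one K) hf' _ _ (fun q _ => pot_psi hp.out.one_lt.le) (killPsi0 K E)
  · exact d5 _ _ (f0_one K) hf' _ _ (fun q hq => pot_phi hp.out.one_lt.le (hl1 q hq).2.le)
      (killPhi0 K E)

lemma fY_equi (K : Ctx p G k j N κ κ' W fC χC fP χ fY cc uu) {y z : G}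
    (hy : y ∈ Cj (PP p G k) j ⊔ XW p G k (j + N) (HH p k j)) (hz : z ∈ ZZ p G k j (j + N)) :
    fY (y * z) = fY y + χ z := by
  have e := K.dec.eq y hy
  have hc := K.dec.c y hy
  have hu := K.dec.u y hy
  have hzP := ZZ_le_P (Nat.le_add_right j N) hz
  have h1 : fY y = fC (cc y) + fP (uu y) := by
    conv_lhs => rw [e]
    exact K.fYeq _ hc _ hu
  have h2 : fY (y * z) = fC (cc y) + fP (uu y * z) := by
    conv_lhs => rw [e, mul_assoc]
    exact K.fYeq _ hc _ (Subgroup.mul_mem _ hu hzP)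
  rw [h1, h2, K.equiP _ hu _ hz, add_assoc]

omit hp in
/-- shifting the argument of `f'` by an element of `F`. -/
lemma dig_add {E : Subgroup (G × Multiplicative TT)} {F : Subgroup E} {l : List (E × ℕ)}
    {f f' : E → TT} (hd : DigitExt p F l f f')
    (hdig : ∀ x : E, ∃ as : List ℕ, as.length = l.length ∧ (∀ a ∈ as, a < p) ∧
        ∃ y ∈ F, x = dprod l as * y) {n : E} (hn : n ∈ F) {c : TT}
    (h : ∀ y ∈ F, f (y * n) = f y + c) (g : E) : f' (g * n) = f' g + c := by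
  obtain ⟨as, h1, h2, y, hy, rfl⟩ := hdig g
  rw [mul_assoc, hd as h1 h2 _ (F.mul_mem hy hn), hd as h1 h2 y hy, h y hy]

lemma exists_fX {l : List (Ew 1 × ℕ)} {f' : Ew 1 → TT}
    (hd : DigitExt p (FF p k j N Ew) l (f0 fY (Ew 1)) f')
    (hdig : ∀ x : Ew 1, ∃ as : List ℕ, as.length = l.length ∧ (∀ a ∈ as, a < p) ∧
        ∃ y ∈ FF p k j N Ew, x = dprod l as * y) : ∃ fX : G → TT, f' = f0 fX (Ew 1) := by
  classical
  have h : ∀ x : G, ∃ t : TT, ∀ g : Ew 1, pr (Ew 1) g = x → f' g = t + ta (Ew 1) g := by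
    intro x
    by_cases hx : ∃ g0 : Ew 1, pr (Ew 1) g0 = x
    · obtain ⟨g0, hg0⟩ := hx
      refine ⟨f' g0 - ta (Ew 1) g0, fun g hg => ?_⟩
      have hn1 : pr (Ew 1) (g0⁻¹ * g) = 1 := by rw [map_mul, map_inv, hg, hg0, inv_mul_cancel]
      have hnF : g0⁻¹ * g ∈ FF p k j N Ew := by
        rw [FF, Subgroup.mem_comap, hn1]; exact Subgroup.one_mem _
      have h1 := dig_add hd hdig hnF (c := ta (Ew 1) (g0⁻¹ * g)) (fun y _ => by
        rw [f0, f0, map_mul, hn1, mul_one, ta_mul, add_assoc]) g0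
      rw [mul_inv_cancel_left] at h1
      have h2 : ta (Ew 1) g = ta (Ew 1) g0 + ta (Ew 1) (g0⁻¹ * g) := by
        rw [← ta_mul, mul_inv_cancel_left]
      rw [h1, h2]; abel
    · exact ⟨0, fun g hg => absurd ⟨g, hg⟩ hx⟩
  choose t ht using h
  exact ⟨t, funext fun g => ht _ g rfl⟩

/-- comparison of words on `g K` with words on `y_0 K`. -/
lemma ev_shift_const {f f' : G → TT} {M : Subgroup G} {g y0 : G} {c : TT}
    (h : ∀ y ∈ M, f (g * y) = f' (y0 * y) + c) {l : List G} (hl : ∀ x ∈ l, x ∈ M) (hne : l ≠ []) :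
    ev f g l = ev f' y0 l := by
  have key : ∀ (l : List G), (∀ x ∈ l, x ∈ M) → ∀ y ∈ M,
      ev f (g * y) l = ev f' (y0 * y) l + (if l = [] then c else 0) := by
    intro l
    induction l with
    | nil => intro _ y hy; rw [ev_nil, ev_nil, if_pos rfl, h y hy]
    | cons x l ih =>
      intro hl y hy
      have hx := hl x (by simp)
      have ih' := ih (fun y hy => hl y (by simp [hy]))
      rw [ev_cons, ev_cons, if_neg (by simp), mul_assoc, mul_assoc, ih' _ (M.mul_mem hy hx),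
        ih' _ hy]
      abel
  have := key l hl 1 M.one_mem
  rwa [mul_one, mul_one, if_neg hne, add_zero] at this

/-- **the stage**. -/
theorem stage_core [Finite G] (hCE : ChainExists p) (hCP : ChainProps p)
    (K : Ctx p G k j N κ κ' W fC χC fP χ fY cc uu) (E : ESer p G k (j + N) χ Ew)
    (Q : QF p G k j) (hW : WOK p G k j W) :
    ∃ fX : G → TT, Data p G k (j + N) κ' (W ∪ WA p G k (j + N) (HH p k j) (RR p k κ j (j + N)) ∪
      WB p G k j (j + N) (b0 j (j + N))) fX χ ∧ ∀ c ∈ Cj (PP p G k) j, fX c = fC c := by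
  obtain ⟨l, f', hd, k1, k2, d1, d2⟩ := exists_digit hCE hCP K E Q
  obtain ⟨fX, rfl⟩ := exists_fX hd d2
  have hle := Nat.le_add_right j N
  have hH := HH_pos (p := p) K.hk j
  -- values on `F`
  have hF : ∀ y ∈ FF p k j N Ew, f0 fX (Ew 1) y = f0 fY (Ew 1) y := by
    intro y hy
    -- all digits zero
    obtain ⟨as, h1, h2, y', hy', h3⟩ := d2 y
    have h0 : ∀ (l : List (Ew 1 × ℕ)), dprod l (List.replicate l.length 0) = 1 := by
      intro l
      induction l with
      | nil => rfl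
      | cons q l ih => rw [List.length_cons, List.replicate_succ, dprod, pow_zero, one_mul, ih]
    have h4 := hd (List.replicate l.length 0) (by simp) (by
      intro a ha
      rw [List.eq_of_mem_replicate ha]; exact hp.out.pos) y hy
    rwa [h0, one_mul] at h4
  have lift1 : ∀ x ∈ Cj (PP p G k) (j + N), ∃ g : Ew 1, pr (Ew 1) g = x := by
    intro x hx
    obtain ⟨τ, hτ⟩ := E.lift 1 x (by rw [XW_one]; exact hx)
    exact ⟨⟨(x, Multiplicative.ofAdd τ), hτ⟩, rfl⟩
  have liftw : ∀ w, ∀ x ∈ XW p G k (j + N) w, ∃ g : Ew 1, pr (Ew 1) g = x ∧ g ∈ SE Ew w := by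
    intro w x hx
    obtain ⟨τ, hτ⟩ := E.lift w x hx
    have h1 : (x, Multiplicative.ofAdd τ) ∈ Ew 1 := by
      rcases Nat.eq_zero_or_pos w with rfl | hw
      · rwa [E.zero] at hτ
      · exact E.anti hw hτ
    exact ⟨⟨_, h1⟩, rfl, mem_SE.2 hτ⟩
  -- on `Y`
  have hY : ∀ y ∈ Cj (PP p G k) j ⊔ XW p G k (j + N) (HH p k j), fX y = fY y := by
    intro y hy
    have hyX : y ∈ Cj (PP p G k) (j + N) :=
      (sup_le (Cj_le hle) XW_le_X : Cj (PP p G k) j ⊔ XW p G k (j + N) (HH p k j) ≤ _) hy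
    obtain ⟨g, hg⟩ := lift1 y hyX
    have h1 := hF g (by rw [FF, Subgroup.mem_comap, hg]; exact hy)
    rw [f0, f0, hg] at h1
    exact add_right_cancel h1
  -- translation to a base point in `Y`
  have hbase : ∀ g ∈ Cj (PP p G k) (j + N), ∃ y0 ∈ Cj (PP p G k) j ⊔ XW p G k (j + N) (HH p k j),
      ∃ c : TT, ∀ y ∈ Cj (PP p G k) j ⊔ XW p G k (j + N) (HH p k j),
        fX (g * y) = fY (y0 * y) + c := by
    intro g hg
    obtain ⟨g', hg'⟩ := lift1 g hg
    obtain ⟨as, h1, h2, y0, hy0, h3⟩ := d2 g'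
    refine ⟨pr (Ew 1) y0, Subgroup.mem_comap.1 hy0, ta _ y0 - ta _ g', fun y hy => ?_⟩
    have hyX : y ∈ Cj (PP p G k) (j + N) :=
      (sup_le (Cj_le hle) XW_le_X : Cj (PP p G k) j ⊔ XW p G k (j + N) (HH p k j) ≤ _) hy
    obtain ⟨y', hy'⟩ := lift1 y hyX
    have hy'F : y' ∈ FF p k j N Ew := by rw [FF, Subgroup.mem_comap, hy']; exact hy
    have h4 : f0 fX (Ew 1) (g' * y') = f0 fY (Ew 1) (y0 * y') := by
      rw [h3, mul_assoc]
      exact hd as h1 h2 _ (Subgroup.mul_mem _ hy0 hy'F)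
    rw [f0, f0, map_mul, map_mul, ta_mul, ta_mul, hg', hy'] at h4
    have h5 : fX (g * y) = fY (pr (Ew 1) y0 * y) + (ta (Ew 1) y0 + ta (Ew 1) y') -
        (ta (Ew 1) g' + ta (Ew 1) y') := by rw [← h4]; abel
    rw [h5]; abel
  have hkillY : ∀ g ∈ Cj (PP p G k) (j + N), ∀ l : List G, l ≠ [] →
      (∀ x ∈ l, x ∈ Cj (PP p G k) j ⊔ XW p G k (j + N) (HH p k j)) →
      (∀ y0 ∈ Cj (PP p G k) j ⊔ XW p G k (j + N) (HH p k j), ev fY y0 l = 0) →
      ext fX (MonoidAlgebra.of ℤ G g * wd l) = 0 := by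
    intro g hg l hne hl h
    obtain ⟨y0, hy0, c, hc⟩ := hbase g hg
    change ev fX g l = 0
    rw [ev_shift_const hc hl hne]
    exact h y0 hy0
  have hcom : ∀ c ∈ Cj (PP p G k) j, ∀ u ∈ XW p G k (j + N) (HH p k j), c * u = u * c :=
    fun c hc u hu => Cj_comm hc hu.2
  -- words on `X`, both potentials
  have hlist : ∀ (T : ℕ → Subgroup (Ew 1)) (L : List (G × ℕ)),
      (∀ a ∈ L, ∃ g : Ew 1, pr (Ew 1) g = a.1 ∧ g ∈ T a.2) →
      ∃ L' : List (Ew 1 × ℕ), WIn ⊤ T L' ∧ wt L' = wt L ∧ L'.length = L.length ∧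
        (L'.map Prod.fst).map (pr (Ew 1)) = L.map Prod.fst := by
    intro T L
    induction L with
    | nil => intro _; exact ⟨[], by intro a ha; simp at ha, rfl, rfl, rfl⟩
    | cons a L ih =>
      intro h
      obtain ⟨L', h1, h2, h3, h4⟩ := ih (fun b hb => h b (List.mem_cons_of_mem _ hb))
      obtain ⟨g, hg1, hg2⟩ := h a (by simp)
      refine ⟨(g, a.2) :: L', ?_, ?_, ?_, ?_⟩
      · intro b hb
        rcases List.mem_cons.1 hb with rfl | hb
        · exact ⟨trivial, hg2⟩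
        · exact h1 b hb
      · simp only [wt, List.map_cons, List.sum_cons] at h2 ⊢
        rw [h2]
      · simp [h3]
      · simp only [List.map_cons, hg1]
        rw [← h4]
  have hKX : ∀ (L : List (G × ℕ)), 2 ≤ L.length →
      (∀ a ∈ L, a.1 ∈ XW p G k (j + N) a.2 ∧ a.2 ≤ HH p k j) → RR p k κ j (j + N) ≤ wt L →
      ev fX 1 (L.map Prod.fst) = 0 := by
    intro L h2 hL hR
    obtain ⟨L', h3, h4, h5, h6⟩ := hlist (SP p k j N Ew) L (by
      intro a ha
      obtain ⟨g, hg1, hg2⟩ := liftw a.2 a.1 (hL a ha).1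
      exact ⟨g, hg1, by rw [SP_of_le (hL a ha).2]; exact hg2⟩)
    have h7 := k2 0 L' (by rintro rfl; simp at h5; omega) h3 (by simpa [h4] using hR)
    rw [pow_zero, one_smul, ext_wd, ev_f0, map_one, h6,
      ev_ta (by rw [List.length_map, h5]; exact h2), add_zero] at h7
    exact h7
  refine ⟨fX, ⟨?_, ?_, ?_, ?_, ?_, ?_⟩, ?_⟩
  · rw [hY 1 (Subgroup.one_mem _), fY_one K]
  · exact fun z hz w hw => K.homχ z (K.Z'_le hz) w (K.Z'_le hw)
  · -- equivariance
    intro c hc z hz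
    obtain ⟨g, hg⟩ := lift1 c hc
    have hz1 : (z, Multiplicative.ofAdd (-χ z)) ∈ Ew 1 :=
      E.graph 1 z (by rw [XW_one]; exact hz.1) hz
    let n : Ew 1 := ⟨_, hz1⟩
    have hn1 : pr (Ew 1) n = z := rfl
    have hn2 : ta (Ew 1) n = -χ z := rfl
    have hzZ := K.Z'_le hz
    have hnF : n ∈ FF p k j N Ew := by
      rw [FF, Subgroup.mem_comap, hn1]
      exact Subgroup.mem_sup_right (ZZ_le_P hle hzZ)
    have h1 := dig_add hd d2 hnF (c := 0) (fun y hy => by
      rw [f0, f0, map_mul, ta_mul, hn1, hn2, fY_equi K (Subgroup.mem_comap.1 hy) hzZ]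
      abel) g
    rw [add_zero, f0, f0, map_mul, ta_mul, hn1, hn2, hg] at h1
    have h2 : fX (c * z) = fX c + ta (Ew 1) g - (ta (Ew 1) g + -χ z) := by rw [← h1]; abel
    rw [h2]; abel
  · -- single elements
    intro w b c hc hb
    obtain ⟨g, hg1, hg2⟩ := liftw w c hc
    obtain ⟨as, h1, h2, y, hy, hyw, h3⟩ := d1 w g hg2
    have h4 : p ^ b • f0 fX (Ew 1) g = 0 := by
      rw [h3, hd as h1 h2 y hy]
      exact single0 K E hy hyw hb
    have h5 := E.shift w b g.1.1 (ta _ g) (mem_SE.1 hg2) hb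
    have h6 : g.1.1 = c := hg1
    rw [h6] at h5
    rw [f0, hg1, smul_add] at h4
    have h7 : p ^ b • fX c = -(p ^ b • ta (Ew 1) g) := eq_neg_of_add_eq_zero_left h4
    have h8 : χ (c ^ p ^ b) = -(p ^ b • ta (Ew 1) g) := eq_neg_of_add_eq_zero_right h5
    rw [h7, h8]
  · -- words
    intro b L h2 hL hR
    obtain ⟨L', h3, h4, h5, h6⟩ := hlist (SE Ew) L (fun a ha => liftw a.2 a.1 (hL a ha))
    have h7 := k1 b L' (by rintro rfl; simp at h5; omega) h3 (by simpa [h4] using hR)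
    rw [ext_wd, ev_f0, map_one, h6, ev_ta (by rw [List.length_map, h5]; exact h2), add_zero] at h7
    rw [ext_wd]
    exact h7
  · -- killed words
    rintro l ((hl | hl) | hl) g hg
    · obtain ⟨hne, hlC, -⟩ := hW l hl
      refine hkillY g hg l hne (fun x hx => Subgroup.mem_sup_left (hlC x hx)) (fun y0 hy0 => ?_)
      have h1 := ev_split (fY := fY) (fC := fC) (fP := fP) (C := Cj (PP p G k) j)
        (P := XW p G k (j + N) (HH p k j)) (cc := fun x => x) (uu := fun _ => 1) (l := l) hcom K.fYeq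
        (fun x hx => ⟨hlC x hx, Subgroup.one_mem _, by simp⟩) (K.dec.c y0 hy0) (K.dec.u y0 hy0)
      rw [← K.dec.eq y0 hy0] at h1
      have h2 : ev fP (uu y0) (l.map fun _ => 1) = 0 := ev_one_mem (by
        rcases l with _ | ⟨x, l⟩
        · exact absurd rfl hne
        · simp) _
      rw [h1, h2, List.map_id', add_zero]
      exact K.data.kill l hl _ (K.dec.c y0 hy0)
    · obtain ⟨L, hL, hR, rfl⟩ := hl
      have hR1 : HH p k j < RR p k κ j (j + N) := by
        have h3 := RR_small (κ := κ) (k := k) (j := j) (N := N) hp.out.one_lt.le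
        have h4 : HH p k j ≤ p * HH p k j := Nat.le_mul_of_pos_left _ hp.out.pos
        omega
      have h2 : 2 ≤ L.length := by
        rcases L with _ | ⟨a, L⟩
        · simp [wt] at hR; omega
        · rcases L with _ | ⟨a', L⟩
          · have := (hL a (by simp)).2
            simp [wt] at hR; omega
          · simp
      change ev fX g _ = 0
      rw [ev_eq, hKX L h2 hL hR, zero_add]
      have h3 := hKX ((g, 1) :: L) (by simp; omega) (by
        intro a ha
        rcases List.mem_cons.1 ha with rfl | ha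
        · exact ⟨by rw [XW_one]; exact hg, hH⟩
        · exact hL a ha) (by
          have : wt ((g, 1) :: L) = 1 + wt L := by simp [wt]
          omega)
      simpa using h3
    · obtain ⟨hlen, hlP⟩ := hl
      have hb3 := b0_three j (j + N)
      have hne : l ≠ [] := by rintro rfl; simp at hlen; omega
      refine hkillY g hg l hne (fun x hx => Subgroup.mem_sup_right (hlP x hx)) (fun y0 hy0 => ?_)
      have h1 := ev_split (fY := fY) (fC := fC) (fP := fP) (C := Cj (PP p G k) j)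
        (P := XW p G k (j + N) (HH p k j)) (cc := fun _ => 1) (uu := fun x => x) (l := l) hcom K.fYeq
        (fun x hx => ⟨Subgroup.one_mem _, hlP x hx, by simp⟩) (K.dec.c y0 hy0) (K.dec.u y0 hy0)
      rw [← K.dec.eq y0 hy0] at h1
      have h2 : ev fC (cc y0) (l.map fun _ => 1) = 0 := ev_one_mem (by
        rcases l with _ | ⟨x, l⟩
        · exact absurd rfl hne
        · simp) _
      rw [h1, h2, List.map_id', zero_add, ev_eq, ← ext_wd, ← ext_wd, K.I2 l (by omega) hlP,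
        zero_add]
      refine K.I2 _ (by simp; omega) ?_
      intro x hx
      rcases List.mem_cons.1 hx with rfl | hx
      · exact K.dec.u y0 hy0
      · exact hlP x hx
  · intro c hc
    rw [hY c (Subgroup.mem_sup_left hc), K.fY_C hc]

end

end RK43
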