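import Mathlib
import Pool.Agent.Helper43.RK.Stage6

/-! Project RK (MP_aa96c4_al): the stage theorem, part 7: assembly. -/

namespace RK43

open RKC2 (Cj PP)
open Pool.Agent.Helper27.BE Pool.Agent.Helper60.RK

/-- extension of characters. -/
lemma extend_char {G : Type} [Group G] {A B : Subgroup G} (hBA : B ≤ A)
    (hcomm : ∀ x ∈ A, ∀ y ∈ A, x * y = y * x) {χ : G → TT}
    (h : ∀ x ∈ B, ∀ y ∈ B, χ (x * y) = χ x + χ y) :
    ∃ χ' : G → TT, (∀ x ∈ A, ∀ y ∈ A, χ' (x * y) = χ' x + χ' y) ∧ ∀ x ∈ B, χ' x = χ x := by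
  classical
  let iA : CommGroup A := { (inferInstance : Group A) with
    mul_comm := fun a b => Subtype.ext (hcomm a a.2 b b.2) }
  let iB : CommGroup B := { (inferInstance : Group B) with
    mul_comm := fun a b => Subtype.ext (hcomm a (hBA a.2) b (hBA b.2)) }
  let i : Additive B →+ Additive A := MonoidHom.toAdditive (Subgroup.inclusion hBA)
  let f : Additive B →ₗ[ℤ] Additive A := i.toIntLinearMap
  have hf : Function.Injective f := fun x y hxy => Subgroup.inclusion_injective hBA hxy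
  let c : CharacterModule (Additive B) :=
    AddMonoidHom.mk' (fun x => χ (Additive.toMul x : B)) (fun x y => h _ (Additive.toMul x : B).2 _ (Additive.toMul y : B).2)
  obtain ⟨d, hd⟩ := CharacterModule.dual_surjective_of_injective f hf c
  refine ⟨fun x => if hx : x ∈ A then d (Additive.ofMul (⟨x, hx⟩ : A)) else 0, ?_, ?_⟩
  · intro x hx y hy
    simp only [dif_pos hx, dif_pos hy, dif_pos (A.mul_mem hx hy)]
    rw [← map_add]
    rfl
  · intro x hx
    simp only [dif_pos (hBA hx)]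
    have := DFunLike.congr_fun hd (Additive.ofMul (⟨x, hx⟩ : B))
    exact this

variable {p : ℕ} [hp : Fact p.Prime]

theorem stageThm (hCE : ChainExists p) (hCP : ChainProps p) (hLP : LemmaP p) (hES : ESerThm p)
    (hQV : QVFacts p) : StageThm p := by
  intro G _ _ hG k hk1 hk j j' κ κ' hj hjj hp3 hb0 hκ W fC χC hW hD
  obtain ⟨N, rfl⟩ := Nat.exists_eq_add_of_lt hjj
  rw [add_assoc] at *
  set M := N + 1 with hM
  have hle := Nat.le_add_right j M
  have hZP : ZZ p G k j (j + M) ≤ XW p G k (j + M) (HH p k j) := ZZ_le_P hle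
  obtain ⟨χ, hχ1, hχ2⟩ := extend_char (A := ZZ p G k j (j + M)) (B := XW p G k j (HH p k j))
    (χ := χC) le_sup_left (fun x hx y hy => ZZ_central x hx y (hZP hy)) hD.hom
  obtain ⟨fP, q1, q2, q3, q4, q5⟩ := hLP hG (XW p G k (j + M) (HH p k j)) (ZZ p G k j (j + M)) j M
    (star_P hG hk1 hk hj) (ZZ_normal _ _ _) hZP ZZ_central
    (fun u hu => le_sup_right (a := XW p G k j (HH p k j)) (P_pow hu le_rfl)) χ hχ1
  obtain ⟨fY, hfY⟩ := exists_fY (C := Cj (PP p G k) j) (P := XW p G k (j + M) (HH p k j))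
    (Z := XW p G k j (HH p k j)) (fC := fC) (fP := fP) (χ := χC)
    (fun c hc u hu => Cj_comm hc hu.2) (fun z hz1 hz2 => ⟨hz1, hz2.2⟩) hD.equi
    (fun u hu z hz => by rw [q2 u hu z (le_sup_left (b := XW p G k (j + M) _) hz), hχ2 z hz])
  obtain ⟨cc, uu, hdec⟩ := exists_dec (Cj (PP p G k) j) (XW p G k (j + M) (HH p k j))
  obtain ⟨Ew, E⟩ := hES hG k hk1 hk (j + M) χ (fun z hz w hw =>
    hχ1 z (le_sup_right (a := XW p G k j (HH p k j)) hz) w
      (le_sup_right (a := XW p G k j (HH p k j)) hw))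
  obtain ⟨r1, r2, r3, r4, r5⟩ := hQV hG k hk1 hk j hj
  have hb0' : b0 j (j + M) = M / j + 3 := by rw [b0, Nat.add_sub_cancel_left]
  have K : Ctx p G k j M κ κ' W fC χC fP χ fY cc uu :=
    { hp3 := hp3, hb0 := hb0, hκ := hκ, hN := by omega, hk := hk1, data := hD, homχ := hχ1,
      agree := hχ2, fP1 := q1, equiP := q2, L := q3, I1 := q4,
      I2 := fun l hl h => q5 l (by rw [← hb0']; exact hl) h, dec := hdec, fYeq := hfY }
  obtain ⟨fX, h1, h2⟩ := stage_core hCE hCP K E ⟨r1, r3, r5⟩ hW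
  exact ⟨fX, χ, h1, h2⟩

end RK43
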