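import Mathlib
import Pool.Agent.Helper43.RK.Stage7

/-! Project RK (MP_aa96c4_al): the final functional, from the base and the stages. -/

namespace RK43

open RKC2 (Cj PP)
open Pool.Agent.Helper27.BE Pool.Agent.Helper60.RK

variable {p : ℕ} [hp : Fact p.Prime] {G : Type} [Group G]

lemma WOK_WA {k j H R : ℕ} (hR : 0 < R) : WOK p G k j (WA p G k j H R) := by
  rintro _ ⟨L, hL, hw, rfl⟩
  refine ⟨?_, ?_, ?_⟩
  · intro h
    have : L = [] := by simpa using h
    subst this
    simp [wt] at hw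
    omega
  · intro x hx
    obtain ⟨a, ha, rfl⟩ := List.mem_map.1 hx
    exact (hL a ha).1.1
  · intro g
    refine ⟨L.map fun a => (g * a.1 * g⁻¹, a.2), ?_, ?_, ?_⟩
    · intro a ha
      obtain ⟨a', ha', rfl⟩ := List.mem_map.1 ha
      exact ⟨(XW_normal k j a'.2).conj_mem _ (hL a' ha').1 g, (hL a' ha').2⟩
    · have : wt (L.map fun a => (g * a.1 * g⁻¹, a.2)) = wt L := by simp [wt, Function.comp_def]
      rw [this]; exact hw
    · simp [Function.comp_def]

lemma WOK_WB {k j j' b : ℕ} (hb : 0 < b) : WOK p G k j' (WB p G k j j' b) := by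
  rintro l ⟨h1, h2⟩
  refine ⟨?_, fun x hx => (h2 x hx).1, fun g => ⟨by simpa using h1, ?_⟩⟩
  · rintro rfl; simp at h1; omega
  · intro x hx
    obtain ⟨y, hy, rfl⟩ := List.mem_map.1 hx
    exact (XW_normal k j' _).conj_mem _ (h2 y hy) g

lemma WOK_union {k j : ℕ} {A B : Set (List G)} (hA : WOK p G k j A) (hB : WOK p G k j B) :
    WOK p G k j (A ∪ B) := by
  rintro l (hl | hl)
  · exact ⟨(hA l hl).1, (hA l hl).2.1, fun g => Or.inl ((hA l hl).2.2 g)⟩
  · exact ⟨(hB l hl).1, (hB l hl).2.1, fun g => Or.inr ((hB l hl).2.2 g)⟩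

lemma WOK_mono {k j j' : ℕ} (h : j ≤ j') {A : Set (List G)} (hA : WOK p G k j A) :
    WOK p G k j' A := fun l hl =>
  ⟨(hA l hl).1, fun x hx => Cj_le h ((hA l hl).2.1 x hx), (hA l hl).2.2⟩

/-- all words. -/
def WW (p : ℕ) [Fact p.Prime] (G : Type) [Group G] (k : ℕ) (js : ℕ → ℕ) (Y : Subgroup G) :
    ℕ → Set (List G)
  | 0 => WA p G k (js 0) (HH p k (js 0)) (p ^ 3 * HH p k (js 0)) ∪ {l | l.length = 2 ∧ ∀ x ∈ l, x ∈ Y}
  | i + 1 => WW p G k js Y i ∪
      WA p G k (js (i + 1)) (HH p k (js i)) (RR p k (kap p js i) (js i) (js (i + 1))) ∪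
      WB p G k (js i) (js (i + 1)) (b0 (js i) (js (i + 1)))

omit hp in
lemma RR_pos (k κ j j' : ℕ) : 0 < RR p k κ j j' := Nat.succ_pos _

lemma kap_le (js : ℕ → ℕ) (i : ℕ) : kap p js i ≤ p ^ 3 * p ^ js i := by
  have hp0 := hp.out.pos
  rcases i with _ | i
  · exact Nat.le_mul_of_pos_right _ (pow_pos hp0 _)
  · rw [kap]
    apply max_le
    · exact Nat.le_mul_of_pos_right _ (pow_pos hp0 _)
    · have h1 : b0 (js i) (js (i + 1)) ≤ js (i + 1) + 3 := by
        unfold b0
        have := Nat.div_le_self (js (i + 1) - js i) (js i)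
        omega
      have h2 : js (i + 1) < 2 ^ js (i + 1) := Nat.lt_two_pow_self
      have h3 : 2 ^ js (i + 1) ≤ p ^ js (i + 1) := Nat.pow_le_pow_left hp.out.two_le _
      have h4 : 4 ≤ p ^ 2 := by
        calc 4 = 2 ^ 2 := by norm_num
          _ ≤ p ^ 2 := Nat.pow_le_pow_left hp.out.two_le _
      have h5 : js (i + 1) + 3 ≤ p ^ 2 * p ^ js (i + 1) := by
        calc js (i + 1) + 3 ≤ 4 * p ^ js (i + 1) := by omega
          _ ≤ p ^ 2 * p ^ js (i + 1) := Nat.mul_le_mul_right _ h4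
      calc p * b0 (js i) (js (i + 1)) ≤ p * (p ^ 2 * p ^ js (i + 1)) :=
            Nat.mul_le_mul_left _ (h1.trans h5)
        _ = _ := by ring

theorem finalThm (hB : BaseThm p) (hS : StageThm p) : FinalThm p := by
  intro G _ _ hG k hk1 hk js s e hj0 hjs hbot hpe hexp
  obtain ⟨Y, hY1, hY2, hY3, hY⟩ := hB hG k hk1 hk (js 0) hj0
  refine ⟨Y, hY1, hY2, hY3, fun z hz hz1 => ?_⟩
  have hj2 : ∀ i ≤ s, 2 ≤ js i := by
    intro i
    induction i with
    | zero => intro _; exact hj0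
    | succ i ih =>
      intro hi
      have h1 := hjs i (by omega)
      have h2 := ih (by omega)
      omega
  have hzC : ∀ j, z ∈ Cj (PP p G k) j := fun j =>
    Subgroup.mem_centralizer_iff.2 (fun u _ => (Subgroup.mem_center_iff.1 hz u))
  have key : ∀ i ≤ s, WOK p G k (js i) (WW p G k js Y i) ∧ ∃ f χ : G → TT,
      Data p G k (js i) (kap p js i) (WW p G k js Y i) f χ ∧ f z ≠ 0 := by
    intro i
    induction i with
    | zero =>
      intro _
      refine ⟨WOK_union (WOK_WA (Nat.mul_pos (pow_pos hp.out.pos 3) (HH_pos hk1 _))) ?_,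
        hY z hz hz1⟩
      rintro l ⟨h1, h2⟩
      refine ⟨by rintro rfl; simp at h1, fun x hx => hY3 (h2 x hx), fun g => ⟨by simpa using h1, ?_⟩⟩
      intro x hx
      obtain ⟨y, hy, rfl⟩ := List.mem_map.1 hx
      exact hY1.conj_mem _ (h2 y hy) g
    | succ i ih =>
      intro hi
      obtain ⟨hW, f, χ, hD, hf⟩ := ih (by omega)
      have hji := hjs i (by omega)
      have hj2i := hj2 i (by omega)
      have hlt : js i < js (i + 1) := by omega
      refine ⟨WOK_union (WOK_union (WOK_mono hlt.le hW) (WOK_WA (RR_pos _ _ _ _)))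
        (WOK_WB (by have := b0_three (js i) (js (i + 1)); omega)), ?_⟩
      obtain ⟨f', χ', hD', hf'⟩ := hS hG k hk1 hk (js i) (js (i + 1)) (kap p js i)
        (kap p js (i + 1)) hj2i hlt (le_max_left _ _) (le_max_right _ _) (by
          calc kap p js i * HH p k (js i) ≤ (p ^ 3 * p ^ js i) * HH p k (js i) :=
                Nat.mul_le_mul_right _ (kap_le js i)
            _ = p ^ 3 * HH p k (js i + js i) := by rw [HH_add]; ring
            _ ≤ p ^ 3 * HH p k (js (i + 1)) := Nat.mul_le_mul_left _ (HH_mono (by omega))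
            _ ≤ kap p js (i + 1) * HH p k (js (i + 1)) :=
                Nat.mul_le_mul_right _ (le_max_left _ _)) (WW p G k js Y i) f χ hW hD
      exact ⟨f', χ', hD', by rw [hf' z (hzC _)]; exact hf⟩
  obtain ⟨hW, f, χ, hD, hf⟩ := key s le_rfl
  have htop : ∀ g : G, g ∈ Cj (PP p G k) (js s) := by
    intro g
    refine Subgroup.mem_centralizer_iff.2 (fun u hu => ?_)
    rw [hbot, SetLike.mem_coe, Subgroup.mem_bot] at hu
    rw [hu, one_mul, mul_one]
  have hWmono : ∀ i, i ≤ s → WW p G k js Y i ⊆ WW p G k js Y s := by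
    intro i hi
    obtain ⟨d, rfl⟩ := Nat.exists_eq_add_of_le hi
    clear * -
    induction d with
    | zero => exact subset_rfl
    | succ d ih => exact ih.trans (fun l hl => Or.inl (Or.inl hl))
  have hχ1 : χ 1 = 0 := by
    have := hD.hom 1 (Subgroup.one_mem _) 1 (Subgroup.one_mem _)
    rw [one_mul] at this
    exact left_eq_add.1 this
  refine ⟨f, hD.one, hf, fun g => ?_, fun g h l hl => ?_⟩
  · rw [hD.single 1 e g (by rw [XW_one]; exact htop g) (by rw [mul_one]; exact hpe), hexp, hχ1]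
  · have hlW : l ∈ WW p G k js Y s := by
      rcases hl with hl | hl | ⟨i, hi, hl | hl⟩
      · exact hWmono 0 (Nat.zero_le _) (Or.inl hl)
      · exact hWmono 0 (Nat.zero_le _) (Or.inr hl)
      · exact hWmono (i + 1) hi (Or.inl (Or.inr hl))
      · exact hWmono (i + 1) hi (Or.inr hl)
    rw [ext_two_sided]
    have h1 := (hW l hlW).2.2 h⁻¹
    rw [inv_inv] at h1
    exact hD.kill _ h1 _ (htop _)

end RK43
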