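import Mathlib
import Pool.Agent.Helper43.RK.Final
import Pool.Agent.Helper27.RK.Chain
import Pool.Agent.Helper2.RK.OneStep
import Pool.Agent.Helper10.RK.LemmaP43
import Pool.Agent.Helper26.RK.Base
import Pool.Agent.Helper46.RK.PowHom
import Pool.Agent.Helper60.RK.QV

/-! Project RK (MP_aa96c4_al): the stage and the base, unconditionally. -/

namespace RK43

theorem chainProps (p : ℕ) [Fact p.Prime] : ChainProps p :=
  RK27.chainProps p (Pool.Agent.Helper2.RK.oneStep p)

theorem eser (p : ℕ) [Fact p.Prime] : ESerThm p :=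
  Pool.Agent.Helper26.RK.eSer p (Pool.Agent.Helper46.RK.powHom p)

/-- the stage theorem. -/
theorem stage (p : ℕ) [Fact p.Prime] : StageThm p :=
  stageThm (RK27.chainExists p) (chainProps p) (Pool.Agent.Helper10.RK.lemmaP43 p) (eser p)
    (Pool.Agent.Helper60.RK.qvFacts p)

/-- the base theorem. -/
theorem base (p : ℕ) [Fact p.Prime] : BaseThm p :=
  Pool.Agent.Helper26.RK.baseThm p (RK27.chainExists p) (chainProps p) (eser p)

theorem final (p : ℕ) [Fact p.Prime] : FinalThm p := finalThm (base p) (stage p)

end RK43
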